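import Pool.Agent.Lib.MP_b573ec_adl.Prog

/-!
From programs to circuits.
-/

set_option autoImplicit false

namespace Pool.Agent.NegCount

open Pool.Agent.CliqueCircuits

/-- The value of a gate of kind `c` whose inputs are the nodes in `A`, with values `v`. -/
def gateVal {α : Type} (c : GateKind) (A : Finset α) (v : α → Prop) : Prop :=
  (c = GateKind.and → ∀ w ∈ A, v w) ∧ (c = GateKind.or → ∃ w ∈ A, v w) ∧
    (c = GateKind.not → ∀ w ∈ A, ¬ v w)

theorem gateVal_and {α : Type} (A : Finset α) (v : α → Prop) :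
    gateVal GateKind.and A v ↔ ∀ w ∈ A, v w := by
  constructor
  · intro h; exact h.1 rfl
  · intro h; exact ⟨fun _ => h, fun e => (by cases e), fun e => (by cases e)⟩

theorem gateVal_or {α : Type} (A : Finset α) (v : α → Prop) :
    gateVal GateKind.or A v ↔ ∃ w ∈ A, v w := by
  constructor
  · intro h; exact h.2.1 rfl
  · intro h; exact ⟨fun e => (by cases e), fun _ => h, fun e => (by cases e)⟩

theorem gateVal_not {α : Type} (A : Finset α) (v : α → Prop) :
    gateVal GateKind.not A v ↔ ∀ w ∈ A, ¬ v w := by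
  constructor
  · intro h; exact h.2.2 rfl
  · intro h; exact ⟨fun e => (by cases e), fun e => (by cases e), fun _ => h⟩

theorem gateVal_map {α β : Type} (c : GateKind) (A : Finset α) (e : α ↪ β) (v : β → Prop) :
    gateVal c (A.map e) v ↔ gateVal c A (fun a => v (e a)) := by
  cases c with
  | and => rw [gateVal_and, gateVal_and]; exact Finset.forall_mem_map
  | or =>
    rw [gateVal_or, gateVal_or]
    constructor
    · rintro ⟨w, hw, h⟩
      obtain ⟨w', hw', rfl⟩ := Finset.mem_map.1 hw
      exact ⟨w', hw', h⟩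
    · rintro ⟨w, hw, h⟩
      exact ⟨e w, Finset.mem_map_of_mem _ hw, h⟩
  | not => rw [gateVal_not, gateVal_not]; exact Finset.forall_mem_map

open Classical in
/-- The number of `i` with `P i`. -/
noncomputable def cnt {s : ℕ} (P : Fin s → Prop) : ℕ := ∑ i, if P i then 1 else 0

theorem cnt_zero (P : Fin 0 → Prop) : cnt P = 0 := by
  unfold cnt; exact Fin.sum_univ_zero _

theorem cnt_succ_of_not {s : ℕ} {P : Fin (s + 1) → Prop} (h : ¬ P (Fin.last s)) :
    cnt P = cnt (fun i => P i.castSucc) := by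
  unfold cnt
  rw [Fin.sum_univ_castSucc, if_neg h, add_zero]

theorem cnt_succ_le {s : ℕ} (P : Fin (s + 1) → Prop) :
    cnt P ≤ cnt (fun i => P i.castSucc) + 1 := by
  unfold cnt
  rw [Fin.sum_univ_castSucc]
  refine Nat.add_le_add_left ?_ _
  split_ifs <;> omega

theorem cnt_card {s : ℕ} (P : Fin s → Prop) : Nat.card {i // P i} = cnt P := by
  classical
  unfold cnt
  rw [Nat.card_eq_fintype_card, Fintype.card_subtype, Finset.card_filter]

/-- The function is the negation of a function in `Z`. -/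
def NegOf {V : Type} (Z : Set (BF V)) (g : BF V) : Prop := ∃ a ∈ Z, g = fun x => ¬ a x

/-- Array form of a program. -/
structure Built {V : Type} (Z : Set (BF V)) (s k : ℕ) (kind : Fin s → GateKind)
    (wires : Fin s → Finset (V ⊕ Fin s)) (F : Fin s → BF V) : Prop where
  acyc : ∀ i j : Fin s, Sum.inr j ∈ wires i → j < i
  una : ∀ i : Fin s, kind i = GateKind.not → (wires i).card = 1
  sem : ∀ i x, F i x ↔ gateVal (kind i) (wires i) (Sum.elim x (fun j => F j x))
  num : cnt (fun i => kind i = GateKind.not ∧ ¬ NegOf Z (F i)) ≤ k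

/-- The embedding of the nodes when a gate is added. -/
def up (V : Type) (s : ℕ) : V ⊕ Fin s ↪ V ⊕ Fin (s + 1) :=
  (Function.Embedding.refl V).sumMap Fin.castSuccEmb

theorem up_elim {V : Type} {s : ℕ} (x : V → Prop) (F' : Fin (s + 1) → BF V) (F : Fin s → BF V)
    (hF : ∀ j : Fin s, F' j.castSucc = F j) :
    (fun w : V ⊕ Fin s => Sum.elim x (fun j => F' j x) (up V s w)) =
      Sum.elim x (fun j => F j x) := by
  funext w
  cases w with
  | inl v => rfl
  | inr j =>
    have : up V s (Sum.inr j) = Sum.inr j.castSucc := rfl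
    rw [this]
    simp only [Sum.elim_inr, hF]

theorem Built.snoc {V : Type} {Z : Set (BF V)} {s k : ℕ} {kind : Fin s → GateKind}
    {wires : Fin s → Finset (V ⊕ Fin s)} {F : Fin s → BF V} (h : Built Z s k kind wires F)
    (c : GateKind) (W : Finset (V ⊕ Fin s)) (hW : c = GateKind.not → W.card = 1) (g : BF V)
    (hg : ∀ x, g x ↔ gateVal c W (Sum.elim x (fun j => F j x)))
    (k' : ℕ) (hk : k ≤ k') (hk' : (c = GateKind.not ∧ ¬ NegOf Z g) → k + 1 ≤ k') :
    ∃ (kind' : Fin (s + 1) → GateKind) (wires' : Fin (s + 1) → Finset (V ⊕ Fin (s + 1)))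
      (F' : Fin (s + 1) → BF V),
      Built Z (s + 1) k' kind' wires' F' ∧ (∀ j : Fin s, F' j.castSucc = F j) ∧
      F' (Fin.last s) = g := by
  obtain ⟨kind', hk1, hk2⟩ : ∃ kind' : Fin (s + 1) → GateKind,
      (∀ j : Fin s, kind' j.castSucc = kind j) ∧ kind' (Fin.last s) = c :=
    ⟨Fin.snoc kind c, fun j => Fin.snoc_castSucc (α := fun _ => GateKind) _ _ _,
      Fin.snoc_last (α := fun _ => GateKind) _ _⟩
  obtain ⟨wires', hw1, hw2⟩ : ∃ wires' : Fin (s + 1) → Finset (V ⊕ Fin (s + 1)),
      (∀ j : Fin s, wires' j.castSucc = (wires j).map (up V s)) ∧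
      wires' (Fin.last s) = W.map (up V s) :=
    ⟨Fin.snoc (α := fun _ => Finset (V ⊕ Fin (s + 1))) (fun j => (wires j).map (up V s))
        (W.map (up V s)),
      fun j => Fin.snoc_castSucc (α := fun _ => Finset (V ⊕ Fin (s + 1))) _ _ _,
      Fin.snoc_last (α := fun _ => Finset (V ⊕ Fin (s + 1))) _ _⟩
  obtain ⟨F', hF1, hF2⟩ : ∃ F' : Fin (s + 1) → BF V,
      (∀ j : Fin s, F' j.castSucc = F j) ∧ F' (Fin.last s) = g :=
    ⟨Fin.snoc (α := fun _ => BF V) F g, fun j => Fin.snoc_castSucc (α := fun _ => BF V) _ _ _,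
      Fin.snoc_last (α := fun _ => BF V) _ _⟩
  refine ⟨kind', wires', F', ⟨?_, ?_, ?_, ?_⟩, hF1, hF2⟩
  · intro i j
    refine Fin.lastCases ?_ ?_ i
    · rw [hw2]
      intro hj
      obtain ⟨w, _, hw'⟩ := Finset.mem_map.1 hj
      cases w with
      | inl v => cases hw'
      | inr a =>
        have : j = a.castSucc := (Sum.inr.inj hw').symm
        rw [this]
        exact Fin.castSucc_lt_last a
    · intro i
      rw [hw1]
      intro hj
      obtain ⟨w, hw, hw'⟩ := Finset.mem_map.1 hj
      cases w with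
      | inl v => cases hw'
      | inr a =>
        have : j = a.castSucc := (Sum.inr.inj hw').symm
        rw [this]
        exact Fin.castSucc_lt_castSucc_iff.2 (h.acyc i a hw)
  · intro i
    refine Fin.lastCases ?_ ?_ i
    · rw [hw2, hk2, Finset.card_map]
      exact hW
    · intro i
      rw [hw1, hk1, Finset.card_map]
      exact h.una i
  · intro i x
    refine Fin.lastCases ?_ ?_ i
    · rw [hw2, hk2, hF2, gateVal_map, up_elim x F' F hF1]
      exact hg x
    · intro i
      rw [hw1, hk1, hF1, gateVal_map, up_elim x F' F hF1]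
      exact h.sem i x
  · by_cases hc : c = GateKind.not ∧ ¬ NegOf Z g
    · refine (cnt_succ_le _).trans ?_
      simp only [hk1, hF1]
      have := h.num
      have := hk' hc
      omega
    · rw [cnt_succ_of_not]
      · simp only [hk1, hF1]
        exact h.num.trans hk
      · rw [hk2, hF2]; exact hc

/-- The array form of a program whose basis is the set of variables. -/
theorem Prog.built {V : Type} [Fintype V] {Z : Set (BF V)} {L : List (BF V)} {k : ℕ}
    (h : Prog (vars V) Z L k) :
    ∃ (kind : Fin L.length → GateKind) (wires : Fin L.length → Finset (V ⊕ Fin L.length))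
      (F : Fin L.length → BF V), Built Z L.length k kind wires F ∧ (∀ g ∈ L, ∃ i, F i = g) := by
  classical
  have sel : ∀ {s : ℕ} {L : List (BF V)} (F : Fin s → BF V), (∀ g ∈ L, ∃ i, F i = g) →
      ∀ g : BF V, (g ∈ vars V ∨ g ∈ L) →
        ∃ w : V ⊕ Fin s, ∀ x, (Sum.elim x (fun j => F j x) w ↔ g x) := by
    intro s L F hF g hg
    rcases hg with ⟨v, rfl⟩ | hg
    · exact ⟨Sum.inl v, fun x => Iff.rfl⟩
    · obtain ⟨i, hi⟩ := hF g hg
      exact ⟨Sum.inr i, fun x => by rw [← hi]; exact Iff.rfl⟩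
  have fin : ∀ {s : ℕ} {L : List (BF V)} (g : BF V) (F : Fin s → BF V)
      (F' : Fin (s + 1) → BF V), (∀ a ∈ L, ∃ i, F i = a) →
      (∀ j : Fin s, F' j.castSucc = F j) → F' (Fin.last s) = g →
      (∀ a ∈ g :: L, ∃ i, F' i = a) := by
    intro s L g F F' hF h1 h2 a ha
    rcases List.mem_cons.1 ha with rfl | ha
    · exact ⟨Fin.last _, h2⟩
    · obtain ⟨i, hi⟩ := hF a ha
      exact ⟨i.castSucc, by rw [h1]; exact hi⟩
  induction h with
  | nil =>
    refine ⟨fun i => i.elim0, fun i => i.elim0, fun i => i.elim0, ⟨?_, ?_, ?_, ?_⟩, ?_⟩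
    · intro i; exact i.elim0
    · intro i; exact i.elim0
    · intro i; exact i.elim0
    · exact (cnt_zero _).le
    · intro g hg; simp at hg
  | @and L k S hS _ ih =>
    obtain ⟨kind, wires, F, hB, hF⟩ := ih
    have hg : ∀ x, (∀ g ∈ S, g x) ↔ gateVal GateKind.and (Finset.univ.filter
        (fun w : V ⊕ Fin L.length =>
          ∃ g ∈ S, ∀ x, (Sum.elim x (fun j => F j x) w ↔ g x))) (Sum.elim x (fun j => F j x)) := by
      intro x
      rw [gateVal_and]
      constructor
      · intro h w hw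
        obtain ⟨g, hg, hgw⟩ := (Finset.mem_filter.1 hw).2
        exact (hgw x).2 (h g hg)
      · intro h g hg
        obtain ⟨w, hw⟩ := sel F hF g (hS g hg)
        exact (hw x).1 (h w (Finset.mem_filter.2 ⟨Finset.mem_univ _, g, hg, hw⟩))
    obtain ⟨kind', wires', F', hB', h1, h2⟩ := hB.snoc GateKind.and _ (by intro h; cases h)
      (fun x => ∀ g ∈ S, g x) hg k le_rfl (by rintro ⟨h, _⟩; cases h)
    exact ⟨kind', wires', F', hB', fin _ F F' hF h1 h2⟩
  | @or L k S hS _ ih =>
    obtain ⟨kind, wires, F, hB, hF⟩ := ih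
    have hg : ∀ x, (∃ g ∈ S, g x) ↔ gateVal GateKind.or (Finset.univ.filter
        (fun w : V ⊕ Fin L.length =>
          ∃ g ∈ S, ∀ x, (Sum.elim x (fun j => F j x) w ↔ g x))) (Sum.elim x (fun j => F j x)) := by
      intro x
      rw [gateVal_or]
      constructor
      · rintro ⟨g, hg, h⟩
        obtain ⟨w, hw⟩ := sel F hF g (hS g hg)
        exact ⟨w, Finset.mem_filter.2 ⟨Finset.mem_univ _, g, hg, hw⟩, (hw x).2 h⟩
      · rintro ⟨w, hw, h⟩
        obtain ⟨g, hg, hgw⟩ := (Finset.mem_filter.1 hw).2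
        exact ⟨g, hg, (hgw x).1 h⟩
    obtain ⟨kind', wires', F', hB', h1, h2⟩ := hB.snoc GateKind.or _ (by intro h; cases h)
      (fun x => ∃ g ∈ S, g x) hg k le_rfl (by rintro ⟨h, _⟩; cases h)
    exact ⟨kind', wires', F', hB', fin _ F F' hF h1 h2⟩
  | @not L k g hg _ ih =>
    obtain ⟨kind, wires, F, hB, hF⟩ := ih
    obtain ⟨w, hw⟩ := sel F hF g hg
    have hg : ∀ x, ¬ g x ↔ gateVal GateKind.not ({w} : Finset (V ⊕ Fin L.length))
        (Sum.elim x (fun j => F j x)) := by
      intro x
      rw [gateVal_not]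
      simp only [Finset.mem_singleton, forall_eq]
      rw [hw x]
    obtain ⟨kind', wires', F', hB', h1, h2⟩ := hB.snoc GateKind.not {w}
      (fun _ => Finset.card_singleton _) (fun x => ¬ g x) hg (k + 1) (Nat.le_succ _)
      (fun _ => le_rfl)
    exact ⟨kind', wires', F', hB', fin _ F F' hF h1 h2⟩
  | @free L k g hg hz _ ih =>
    obtain ⟨kind, wires, F, hB, hF⟩ := ih
    obtain ⟨w, hw⟩ := sel F hF g hg
    have hg : ∀ x, ¬ g x ↔ gateVal GateKind.not ({w} : Finset (V ⊕ Fin L.length))
        (Sum.elim x (fun j => F j x)) := by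
      intro x
      rw [gateVal_not]
      simp only [Finset.mem_singleton, forall_eq]
      rw [hw x]
    obtain ⟨kind', wires', F', hB', h1, h2⟩ := hB.snoc GateKind.not {w}
      (fun _ => Finset.card_singleton _) (fun x => ¬ g x) hg k le_rfl
      (fun h => absurd ⟨g, hz, rfl⟩ h.2)
    exact ⟨kind', wires', F', hB', fin _ F F' hF h1 h2⟩

/-- From a program to a circuit. The NOT gates whose value is not the negation of a function in
`Z` are at most `k` in number. -/
theorem Gen.circuit {V : Type} [Fintype V] {Z : Set (BF V)} {m k : ℕ} {f : BF V}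
    (h : Gen (vars V) Z m k {f}) :
    ∃ (s : ℕ) (C : Circuit V s) (F : Fin s → BF V), s ≤ m + 1 ∧ (∀ x, C.IsEval x (fun i => F i x)) ∧
      F C.out = f ∧
      Nat.card {i : Fin s // C.kind i = GateKind.not ∧ ¬ NegOf Z (F i)} ≤ k := by
  obtain ⟨L, k1, hL, h1, h2, h3⟩ := h
  have h4 := Prog.and {f} (fun g hg => h3 g hg) hL
  have ef : (fun x => ∀ g ∈ ({f} : Set (BF V)), g x) = f := by
    funext x; simp
  rw [ef] at h4
  obtain ⟨kind, wires, F, hB, hF⟩ := h4.built
  obtain ⟨o, ho⟩ := hF f List.mem_cons_self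
  refine ⟨(f :: L).length, ⟨kind, wires, hB.acyc, hB.una, o⟩, F, ?_, ?_, ho, ?_⟩
  · simp only [List.length_cons]; omega
  · intro x i
    have hi := hB.sem i x
    refine ⟨fun hk => ?_, fun hk => ?_, fun hk => ?_⟩
    · simp only at hk
      rw [hk, gateVal_and] at hi; exact hi
    · simp only at hk
      rw [hk, gateVal_or] at hi; exact hi
    · simp only at hk
      rw [hk, gateVal_not] at hi; exact hi
  · rw [cnt_card]
    exact hB.num.trans h2

end Pool.Agent.NegCount
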