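import Pool.Agent.Lib.MP_b573ec_adl.Conv

/-!
A circuit with few live NOT gates is the difference of two monotone counts.
-/

set_option autoImplicit false

namespace Pool.Agent.NegCount

open Pool.Agent.CliqueCircuits

section count

variable {V : Type}

open Classical in
/-- The number of functions in the list that are true at `x`. -/
noncomputable def cntL (L : List (BF V)) (x : V → Prop) : ℕ :=
  (L.map (fun g => if g x then 1 else 0)).sum

theorem cntL_nil (x : V → Prop) : cntL ([] : List (BF V)) x = 0 := rfl

open Classical in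
theorem cntL_cons (g : BF V) (L : List (BF V)) (x : V → Prop) :
    cntL (g :: L) x = (if g x then 1 else 0) + cntL L x := rfl

theorem cntL_cons_pos {g : BF V} (L : List (BF V)) {x : V → Prop} (h : g x) :
    cntL (g :: L) x = cntL L x + 1 := by
  rw [cntL_cons, if_pos h, add_comm]

theorem cntL_cons_neg {g : BF V} (L : List (BF V)) {x : V → Prop} (h : ¬ g x) :
    cntL (g :: L) x = cntL L x := by
  rw [cntL_cons, if_neg h, zero_add]

theorem cntL_append (L L' : List (BF V)) (x : V → Prop) :
    cntL (L ++ L') x = cntL L x + cntL L' x := by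
  unfold cntL
  rw [List.map_append, List.sum_append]

theorem cntL_le (L : List (BF V)) (x : V → Prop) : cntL L x ≤ L.length := by
  induction L with
  | nil => exact le_rfl
  | cons g L ih =>
    rw [cntL_cons, List.length_cons]
    split_ifs <;> omega

theorem cntL_all {L : List (BF V)} {x : V → Prop} (h : ∀ g ∈ L, g x) :
    cntL L x = L.length := by
  induction L with
  | nil => rfl
  | cons g L ih =>
    rw [cntL_cons_pos L (h g List.mem_cons_self), ih fun g hg => h g (List.mem_cons_of_mem _ hg),
      List.length_cons]

theorem cntL_none {L : List (BF V)} {x : V → Prop} (h : ∀ g ∈ L, ¬ g x) : cntL L x = 0 := by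
  induction L with
  | nil => rfl
  | cons g L ih =>
    rw [cntL_cons_neg L (h g List.mem_cons_self), ih fun g hg => h g (List.mem_cons_of_mem _ hg)]

theorem cntL_map_congr {L : List (BF V)} {x : V → Prop} (T : BF V → BF V)
    (h : ∀ g ∈ L, (T g x ↔ g x)) : cntL (L.map T) x = cntL L x := by
  induction L with
  | nil => rfl
  | cons g L ih =>
    rw [List.map_cons]
    have hg := h g List.mem_cons_self
    have ih' := ih fun g hg => h g (List.mem_cons_of_mem _ hg)
    by_cases hx : g x
    · rw [cntL_cons_pos _ hx, cntL_cons_pos _ (hg.2 hx), ih']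
    · rw [cntL_cons_neg _ hx, cntL_cons_neg _ (fun h => hx (hg.1 h)), ih']

theorem cntL_mono {L : List (BF V)} (hL : ∀ g ∈ L, MonoFn g) {x y : V → Prop}
    (h : ∀ v, x v → y v) : cntL L x ≤ cntL L y := by
  induction L with
  | nil => exact le_rfl
  | cons g L ih =>
    have ih' := ih fun g hg => hL g (List.mem_cons_of_mem _ hg)
    by_cases hx : g x
    · rw [cntL_cons_pos _ hx, cntL_cons_pos _ (hL g List.mem_cons_self x y h hx)]
      omega
    · rw [cntL_cons_neg _ hx, cntL_cons]
      omega

end count

/-! ### Semi-frozen evaluation -/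

section semi

variable {W : Type} {s : ℕ}

/-- Evaluation in which the NOT gates outside `R` have the prescribed values `b`. -/
def Semi (C : Circuit W s) (R : Finset (Fin s)) (b : Fin s → Prop) (y : W → Prop)
    (val : Fin s → Prop) : Prop :=
  ∀ i, (C.kind i = GateKind.not → i ∉ R → (val i ↔ b i)) ∧
    (C.kind i ≠ GateKind.not ∨ i ∈ R → (val i ↔ gateVal (C.kind i) (C.wires i) (Sum.elim y val)))

theorem gateVal_congr {α : Type} {c : GateKind} {A : Finset α} {v v' : α → Prop}
    (h : ∀ w ∈ A, (v w ↔ v' w)) : gateVal c A v ↔ gateVal c A v' := by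
  cases c with
  | and => rw [gateVal_and, gateVal_and]; exact forall₂_congr h
  | or =>
    rw [gateVal_or, gateVal_or]
    exact ⟨fun ⟨w, hw, h'⟩ => ⟨w, hw, (h w hw).1 h'⟩, fun ⟨w, hw, h'⟩ => ⟨w, hw, (h w hw).2 h'⟩⟩
  | not => rw [gateVal_not, gateVal_not]; exact forall₂_congr fun w hw => not_congr (h w hw)

/-- Two semi-frozen evaluations agree below `i₀` if the NOT gates there are treated alike. -/
theorem Semi.agree {C : Circuit W s} {R R' : Finset (Fin s)} {b b' : Fin s → Prop}
    {y : W → Prop} {val val' : Fin s → Prop} (h : Semi C R b y val) (h' : Semi C R' b' y val')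
    (N : ℕ) (hR : ∀ i : Fin s, i.val < N → C.kind i = GateKind.not →
      ((i ∈ R ∧ i ∈ R') ∨ (i ∉ R ∧ i ∉ R' ∧ (b i ↔ b' i)))) :
    ∀ i : Fin s, i.val < N → (val i ↔ val' i) := by
  have key : ∀ M : ℕ, ∀ i : Fin s, i.val = M → i.val < N → (val i ↔ val' i) := by
    intro M
    induction M using Nat.strong_induction_on with
    | _ M ih =>
      intro i hi hiN
      have hw : ∀ w ∈ C.wires i, (Sum.elim y val w ↔ Sum.elim y val' w) := by
        intro w hw
        cases w with
        | inl v => exact Iff.rfl
        | inr j =>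
          have hj := C.acyclic i j hw
          have hj' : j.val < i.val := hj
          exact ih j.val (by omega) j rfl (by omega)
      by_cases hk : C.kind i = GateKind.not
      · rcases hR i hiN hk with ⟨h1, h2⟩ | ⟨h1, h2, h3⟩
        · rw [(h i).2 (Or.inr h1), (h' i).2 (Or.inr h2)]
          exact gateVal_congr hw
        · rw [(h i).1 hk h1, (h' i).1 hk h2, h3]
      · rw [(h i).2 (Or.inl hk), (h' i).2 (Or.inl hk)]
        exact gateVal_congr hw
  exact fun i hi => key i.val i rfl hi

theorem exists_semi (C : Circuit W s) (R : Finset (Fin s)) (b : Fin s → Prop) (y : W → Prop) :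
    ∃ val, Semi C R b y val := by
  classical
  let Φ : Fin s → (Fin s → Prop) → Prop := fun i val =>
    if C.kind i = GateKind.not ∧ i ∉ R then b i
    else gateVal (C.kind i) (C.wires i) (Sum.elim y val)
  have hΦ : ∀ i f g, (∀ j, j < i → f j = g j) → Φ i f = Φ i g := by
    intro i f g hfg
    simp only [Φ]
    split_ifs with hc
    · rfl
    · apply propext
      refine gateVal_congr ?_
      intro w hw
      cases w with
      | inl v => exact Iff.rfl
      | inr j =>
        simp only [Sum.elim_inr]
        rw [hfg j (C.acyclic i j hw)]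
  obtain ⟨f, hf⟩ := exists_rec Φ hΦ
  refine ⟨f, fun i => ⟨fun hk hi => ?_, fun hc => ?_⟩⟩
  · have := hf i
    simp only [Φ] at this
    rw [if_pos ⟨hk, hi⟩] at this
    exact Iff.of_eq this
  · have := hf i
    simp only [Φ] at this
    rw [if_neg (by rintro ⟨h1, h2⟩; rcases hc with h | h; exacts [h h1, h2 h])] at this
    exact Iff.of_eq this

/-- The semi-frozen evaluation. -/
noncomputable def sv (C : Circuit W s) (R : Finset (Fin s)) (b : Fin s → Prop) (y : W → Prop) :
    Fin s → Prop := (exists_semi C R b y).choose

theorem sv_spec (C : Circuit W s) (R : Finset (Fin s)) (b : Fin s → Prop) (y : W → Prop) :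
    Semi C R b y (sv C R b y) := (exists_semi C R b y).choose_spec

theorem Semi.eq_sv {C : Circuit W s} {R : Finset (Fin s)} {b : Fin s → Prop}
    {y : W → Prop} {val : Fin s → Prop} (h : Semi C R b y val) : val = sv C R b y := by
  funext i
  refine propext (h.agree (sv_spec C R b y) s ?_ i i.isLt)
  intro i _ _
  by_cases hi : i ∈ R
  · exact Or.inl ⟨hi, hi⟩
  · exact Or.inr ⟨hi, hi, Iff.rfl⟩

end semi

/-! ### The decomposition -/

section dec

variable {V W : Type} {s : ℕ} {B Z : Set (BF V)}

/-- All gates of the totally frozen circuit are computed by `s` gates, without NOT gates. -/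
theorem frozen_gen (C : Circuit W s) (b : Fin s → Prop) (a : (V → Prop) → W → Prop)
    (ha : ∀ w, (fun x => a x w) ∈ B) :
    Gen B Z s 0 {g | ∃ i, g = fun x => sv C ∅ b (a x) i} := by
  have key : ∀ N, N ≤ s → ∃ L : List (BF V), Prog B Z L 0 ∧ L.length = N ∧
      ∀ i : Fin s, i.val < N → (fun x => sv C ∅ b (a x) i) ∈ L := by
    intro N
    induction N with
    | zero => exact fun _ => ⟨[], Prog.nil, rfl, fun i hi => absurd hi (Nat.not_lt_zero _)⟩
    | succ N ih =>
      intro hN
      obtain ⟨L, hL, hlen, hmem⟩ := ih (by omega)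
      let i₀ : Fin s := ⟨N, by omega⟩
      have hnode : ∀ w ∈ C.wires i₀, (fun x => Sum.elim (a x) (sv C ∅ b (a x)) w) ∈ B ∨
          (fun x => Sum.elim (a x) (sv C ∅ b (a x)) w) ∈ L := by
        intro w hw
        cases w with
        | inl v => exact Or.inl (ha v)
        | inr j =>
          have hj : j.val < N := C.acyclic i₀ j hw
          exact Or.inr (hmem j hj)
      -- it is enough to compute gate `i₀`
      suffices h : ∃ g, Prog B Z (g :: L) 0 ∧ g = fun x => sv C ∅ b (a x) i₀ by
        obtain ⟨g, hg, hg'⟩ := h
        refine ⟨g :: L, hg, by simp [hlen], ?_⟩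
        intro i hi
        by_cases hi' : i.val < N
        · exact List.mem_cons_of_mem _ (hmem i hi')
        · have : i = i₀ := Fin.ext (by simp only [i₀]; omega)
          rw [this, ← hg']
          exact List.mem_cons_self
      cases hk : C.kind i₀ with
      | and =>
        refine ⟨_, Prog.and {g | ∃ w ∈ C.wires i₀, g = fun x =>
          Sum.elim (a x) (sv C ∅ b (a x)) w} ?_ hL, ?_⟩
        · rintro g ⟨w, hw, rfl⟩
          exact hnode w hw
        · funext x
          apply propext
          have h1 := (sv_spec C ∅ b (a x) i₀).2 (Or.inl (by rw [hk]; simp))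
          rw [hk, gateVal_and] at h1
          rw [h1]
          constructor
          · intro h w hw
            exact h _ ⟨w, hw, rfl⟩
          · rintro h g ⟨w, hw, rfl⟩
            exact h w hw
      | or =>
        refine ⟨_, Prog.or {g | ∃ w ∈ C.wires i₀, g = fun x =>
          Sum.elim (a x) (sv C ∅ b (a x)) w} ?_ hL, ?_⟩
        · rintro g ⟨w, hw, rfl⟩
          exact hnode w hw
        · funext x
          apply propext
          have h1 := (sv_spec C ∅ b (a x) i₀).2 (Or.inl (by rw [hk]; simp))
          rw [hk, gateVal_or] at h1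
          rw [h1]
          constructor
          · rintro ⟨g, ⟨w, hw, rfl⟩, h⟩
            exact ⟨w, hw, h⟩
          · rintro ⟨w, hw, h⟩
            exact ⟨_, ⟨w, hw, rfl⟩, h⟩
      | not =>
        have h1 : ∀ x, (sv C ∅ b (a x) i₀ ↔ b i₀) :=
          fun x => (sv_spec C ∅ b (a x) i₀).1 hk (Finset.notMem_empty _)
        by_cases hb : b i₀
        · refine ⟨_, Prog.and ∅ (fun g hg => absurd hg (Set.notMem_empty _)) hL, ?_⟩
          funext x
          apply propext
          rw [h1]
          simp [hb]
        · refine ⟨_, Prog.or ∅ (fun g hg => absurd hg (Set.notMem_empty _)) hL, ?_⟩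
          funext x
          apply propext
          rw [h1]
          simp [hb]
  obtain ⟨L, hL, hlen, hmem⟩ := key s le_rfl
  refine ⟨L, 0, hL, hlen.le, le_rfl, ?_⟩
  rintro g ⟨i, rfl⟩
  exact Or.inr (hmem i i.isLt)

/-- The difference of two monotone counts. -/
def Dec (B Z : Set (BF V)) (M ρ : ℕ) (h : BF V) : Prop :=
  ∃ U Y : List (BF V), U.length + 1 = 2 ^ ρ ∧ Y.length = 2 ^ ρ ∧
    Gen B Z M 0 ({g | g ∈ U} ∪ {g | g ∈ Y}) ∧
    ∀ x, (h x → cntL Y x = cntL U x + 1) ∧ (¬ h x → cntL Y x = cntL U x)

theorem Gen.list_map {m : ℕ} (L : List (BF V)) (T : BF V → BF V)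
    (h : ∀ g ∈ L, Gen B Z m 0 {T g}) : Gen B Z (L.length * m) 0 {g | g ∈ L.map T} := by
  induction L with
  | nil => exact (Gen.zero (F := ∅) (Set.empty_subset _)).mono (by simp) le_rfl (by
      intro g hg; simp at hg)
  | cons a L ih =>
    refine ((ih fun g hg => h g (List.mem_cons_of_mem _ hg)).union
      (h a List.mem_cons_self)).mono (by simp only [List.length_cons]; ring_nf; rfl) le_rfl ?_
    intro g hg
    have : g ∈ (T a) :: L.map T := by simpa using hg
    rcases List.mem_cons.1 this with rfl | h
    · exact Or.inr rfl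
    · exact Or.inl h

theorem dec_aux (C : Circuit W s) (a : (V → Prop) → W → Prop) (ha : ∀ w, (fun x => a x w) ∈ B) :
    ∀ (ρ : ℕ) (R : Finset (Fin s)) (b : Fin s → Prop), R.card ≤ ρ →
      (∀ i ∈ R, C.kind i = GateKind.not) → ∃ M, M + (s + 1) ≤ 2 ^ ρ * (2 * s + 1 + 2 * ρ) ∧
      Dec B Z M ρ (fun x => sv C R b (a x) C.out) := by
  classical
  intro ρ
  induction ρ with
  | zero =>
    intro R b hR _
    have hR0 : R = ∅ := Finset.card_eq_zero.1 (Nat.le_zero.1 hR)
    subst hR0
    refine ⟨s, by simp; omega, [], [fun x => sv C ∅ b (a x) C.out], rfl, rfl, ?_, ?_⟩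
    · refine (frozen_gen C b a ha).mono le_rfl le_rfl ?_
      rintro g (hg | hg)
      · simp at hg
      · simp only [List.mem_singleton, Set.mem_ofPred_eq] at hg
        exact ⟨C.out, hg⟩
    · intro x
      refine ⟨fun h => ?_, fun h => ?_⟩
      · rw [cntL_cons_pos _ h]
      · rw [cntL_cons_neg _ h]
  | succ ρ ih =>
    intro R b hR hRn
    have e2 : 2 ^ (ρ + 1) = 2 * 2 ^ ρ := by rw [pow_succ]; ring
    have hp : 1 ≤ 2 ^ ρ := Nat.one_le_two_pow
    rcases R.eq_empty_or_nonempty with hR0 | hRne
    · subst hR0
      obtain ⟨M, hM, U, Y, hU, hY, hG, hx⟩ := ih ∅ b (by simp) (by simp)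
      refine ⟨M + 1, ?_, U ++ List.replicate (2 ^ ρ) (fun _ => False),
        Y ++ List.replicate (2 ^ ρ) (fun _ => False), ?_, ?_, ?_, ?_⟩
      · rw [e2]
        nlinarith
      · rw [List.length_append, List.length_replicate]; omega
      · rw [List.length_append, List.length_replicate]; omega
      · refine (hG.union Gen.false).mono le_rfl le_rfl ?_
        rintro g (hg | hg)
        · simp only [Set.mem_ofPred_eq, List.mem_append, List.mem_replicate] at hg
          rcases hg with h | h
          · exact Or.inl (Or.inl h)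
          · exact Or.inr h.2
        · simp only [Set.mem_ofPred_eq, List.mem_append, List.mem_replicate] at hg
          rcases hg with h | h
          · exact Or.inl (Or.inr h)
          · exact Or.inr h.2
      · intro x
        have h0 : cntL (List.replicate (2 ^ ρ) (fun _ => False : BF V)) x = 0 := by
          apply cntL_none
          intro g hg
          rw [(List.mem_replicate.1 hg).2]
          exact id
        rw [cntL_append, cntL_append, h0, add_zero, add_zero]
        exact hx x
    · -- the first live NOT gate
      obtain ⟨i₀, hi₀, hmin⟩ : ∃ i₀ ∈ R, ∀ i ∈ R, i₀ ≤ i :=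
        ⟨R.min' hRne, R.min'_mem hRne, fun i hi => R.min'_le i hi⟩
      have hkn : C.kind i₀ = GateKind.not := hRn i₀ hi₀
      let inp : BF V := fun x => ∃ w ∈ C.wires i₀, Sum.elim (a x) (sv C ∅ b (a x)) w
      have hcard : (R.erase i₀).card ≤ ρ := by
        rw [Finset.card_erase_of_mem hi₀]; omega
      have hRn' : ∀ i ∈ R.erase i₀, C.kind i = GateKind.not :=
        fun i hi => hRn i (Finset.mem_of_mem_erase hi)
      obtain ⟨M1, hM1, U1, Y1, hU1, hY1, hG1, hx1⟩ :=
        ih (R.erase i₀) (Function.update b i₀ True) hcard hRn'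
      obtain ⟨M0, hM0, U0, Y0, hU0, hY0, hG0, hx0⟩ :=
        ih (R.erase i₀) (Function.update b i₀ False) hcard hRn'
      -- the value of the gate
      have hval : ∀ x, (sv C R b (a x) i₀ ↔ ¬ inp x) := by
        intro x
        have h1 := (sv_spec C R b (a x) i₀).2 (Or.inr hi₀)
        rw [hkn, gateVal_not] at h1
        rw [h1]
        have h2 : ∀ w ∈ C.wires i₀, (Sum.elim (a x) (sv C R b (a x)) w ↔
            Sum.elim (a x) (sv C ∅ b (a x)) w) := by
          intro w hw
          cases w with
          | inl v => exact Iff.rfl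
          | inr j =>
            have hj : j.val < i₀.val := C.acyclic i₀ j hw
            refine (sv_spec C R b (a x)).agree (sv_spec C ∅ b (a x)) i₀.val ?_ j hj
            intro i hi _
            refine Or.inr ⟨fun hiR => ?_, Finset.notMem_empty _, Iff.rfl⟩
            have : i₀.val ≤ i.val := hmin i hiR
            omega
        simp only [inp]
        push Not
        exact forall₂_congr fun w hw => not_congr (h2 w hw)
      have hupd : ∀ x (c : Prop), (sv C R b (a x) i₀ ↔ c) →
          sv C R b (a x) = sv C (R.erase i₀) (Function.update b i₀ c) (a x) := by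
        intro x c hc
        apply Semi.eq_sv
        intro i
        have hs := sv_spec C R b (a x) i
        by_cases hi : i = i₀
        · subst hi
          refine ⟨fun _ _ => ?_, fun h => ?_⟩
          · rw [Function.update_self]; exact hc
          · exfalso
            rcases h with h | h
            · exact h hkn
            · exact (Finset.notMem_erase _ _) h
        · refine ⟨fun hk hiR => ?_, fun h => hs.2 ?_⟩
          · rw [Function.update_of_ne hi]
            exact hs.1 hk (fun h => hiR (Finset.mem_erase.2 ⟨hi, h⟩))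
          · rcases h with h | h
            · exact Or.inl h
            · exact Or.inr (Finset.mem_of_mem_erase h)
      have hginp : Gen B Z (s + 1) 0 {inp} := by
        have h1 := frozen_gen (Z := Z) C b a ha
        have h2 := Gen.or (B := B ∪ {g | ∃ i, g = fun x => sv C ∅ b (a x) i}) (Z := Z)
          {g | ∃ w ∈ C.wires i₀, g = fun x => Sum.elim (a x) (sv C ∅ b (a x)) w} (by
            rintro g ⟨w, hw, rfl⟩
            cases w with
            | inl v => exact Or.inl (ha v)
            | inr j => exact Or.inr ⟨j, rfl⟩)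
        refine (h1.trans h2).mono le_rfl le_rfl ?_
        intro g hg
        right
        rw [Set.mem_singleton_iff] at hg ⊢
        rw [hg]
        funext x
        apply propext
        constructor
        · rintro ⟨w, hw, h⟩
          exact ⟨_, ⟨w, hw, rfl⟩, h⟩
        · rintro ⟨g, ⟨w, hw, rfl⟩, h⟩
          exact ⟨w, hw, h⟩
      -- the combined lists
      refine ⟨M1 + M0 + (s + 1) + ((2 * 2 ^ ρ - 1) + (2 * 2 ^ ρ - 1)), ?_,
        U1.map (fun g x => inp x ∨ g x) ++ (inp :: U0.map (fun g x => inp x ∧ g x)),
        Y1.map (fun g x => inp x ∨ g x) ++ Y0.map (fun g x => inp x ∧ g x), ?_, ?_, ?_, ?_⟩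
      · rw [e2]
        have : (2 * 2 ^ ρ - 1) + (2 * 2 ^ ρ - 1) ≤ 4 * 2 ^ ρ := by omega
        nlinarith
      · simp only [List.length_append, List.length_cons, List.length_map]; omega
      · simp only [List.length_append, List.length_map]; omega
      · have h3 := (hG1.union hG0).union hginp
        have hor : ∀ L : List (BF V), ({g | g ∈ L} : Set (BF V)) ⊆
            ({g | g ∈ U1} ∪ {g | g ∈ Y1}) ∪ ({g | g ∈ U0} ∪ {g | g ∈ Y0}) →
            Gen (B ∪ ((({g | g ∈ U1} ∪ {g | g ∈ Y1}) ∪ ({g | g ∈ U0} ∪ {g | g ∈ Y0})) ∪ {inp}))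
              Z (L.length * 1) 0 {g | g ∈ L.map (fun g x => inp x ∨ g x)} := by
          intro L hL
          apply Gen.list_map
          intro g hg
          exact Gen.or2 (Or.inr (Or.inr rfl)) (Or.inr (Or.inl (hL hg)))
        have hand : ∀ L : List (BF V), ({g | g ∈ L} : Set (BF V)) ⊆
            ({g | g ∈ U1} ∪ {g | g ∈ Y1}) ∪ ({g | g ∈ U0} ∪ {g | g ∈ Y0}) →
            Gen (B ∪ ((({g | g ∈ U1} ∪ {g | g ∈ Y1}) ∪ ({g | g ∈ U0} ∪ {g | g ∈ Y0})) ∪ {inp}))
              Z (L.length * 1) 0 {g | g ∈ L.map (fun g x => inp x ∧ g x)} := by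
          intro L hL
          apply Gen.list_map
          intro g hg
          exact Gen.and2 (Or.inr (Or.inr rfl)) (Or.inr (Or.inl (hL hg)))
        have h4 := ((hor U1 (fun g hg => Or.inl (Or.inl hg))).union
          (hor Y1 (fun g hg => Or.inl (Or.inr hg)))).union
          ((hand U0 (fun g hg => Or.inr (Or.inl hg))).union
          (hand Y0 (fun g hg => Or.inr (Or.inr hg))))
        refine (h3.trans h4).mono ?_ le_rfl ?_
        · simp only [mul_one]; omega
        · rintro g (hg | hg)
          · simp only [Set.mem_ofPred_eq, List.mem_append, List.mem_cons] at hg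
            rcases hg with h | h | h
            · exact Or.inr (Or.inl (Or.inl h))
            · exact Or.inl (Or.inr h)
            · exact Or.inr (Or.inr (Or.inl h))
          · simp only [Set.mem_ofPred_eq, List.mem_append] at hg
            rcases hg with h | h
            · exact Or.inr (Or.inl (Or.inr h))
            · exact Or.inr (Or.inr (Or.inr h))
      · intro x
        by_cases hi : inp x
        · -- the gate is false
          have e : sv C R b (a x) = sv C (R.erase i₀) (Function.update b i₀ False) (a x) :=
            hupd x False ⟨fun h => (hval x).1 h hi, fun h => h.elim⟩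
          have c1 : cntL (U1.map (fun g x => inp x ∨ g x)) x = U1.length := by
            rw [← List.length_map (f := fun (g : BF V) x => inp x ∨ g x)]
            apply cntL_all
            intro g hg
            obtain ⟨g', _, rfl⟩ := List.mem_map.1 hg
            exact Or.inl hi
          have c2 : cntL (Y1.map (fun g x => inp x ∨ g x)) x = Y1.length := by
            rw [← List.length_map (f := fun (g : BF V) x => inp x ∨ g x)]
            apply cntL_all
            intro g hg
            obtain ⟨g', _, rfl⟩ := List.mem_map.1 hg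
            exact Or.inl hi
          have c3 : cntL (U0.map (fun g x => inp x ∧ g x)) x = cntL U0 x :=
            cntL_map_congr _ fun g _ => ⟨fun h => h.2, fun h => ⟨hi, h⟩⟩
          have c4 : cntL (Y0.map (fun g x => inp x ∧ g x)) x = cntL Y0 x :=
            cntL_map_congr _ fun g _ => ⟨fun h => h.2, fun h => ⟨hi, h⟩⟩
          beta_reduce
          rw [cntL_append, cntL_append, cntL_cons_pos _ hi, c1, c2, c3, c4, e]
          have := hx0 x
          beta_reduce at this
          refine ⟨fun h => ?_, fun h => ?_⟩
          · have := this.1 h; omega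
          · have := this.2 h; omega
        · have e : sv C R b (a x) = sv C (R.erase i₀) (Function.update b i₀ True) (a x) :=
            hupd x True ⟨fun _ => trivial, fun _ => (hval x).2 hi⟩
          have c1 : cntL (U1.map (fun g x => inp x ∨ g x)) x = cntL U1 x :=
            cntL_map_congr _ fun g _ => ⟨fun h => h.resolve_left hi, fun h => Or.inr h⟩
          have c2 : cntL (Y1.map (fun g x => inp x ∨ g x)) x = cntL Y1 x :=
            cntL_map_congr _ fun g _ => ⟨fun h => h.resolve_left hi, fun h => Or.inr h⟩
          have c3 : cntL (U0.map (fun g x => inp x ∧ g x)) x = 0 := by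
            apply cntL_none
            intro g hg
            obtain ⟨g', _, rfl⟩ := List.mem_map.1 hg
            exact fun h => hi h.1
          have c4 : cntL (Y0.map (fun g x => inp x ∧ g x)) x = 0 := by
            apply cntL_none
            intro g hg
            obtain ⟨g', _, rfl⟩ := List.mem_map.1 hg
            exact fun h => hi h.1
          beta_reduce
          rw [cntL_append, cntL_append, cntL_cons_neg _ hi, c1, c2, c3, c4, e]
          have := hx1 x
          beta_reduce at this
          refine ⟨fun h => ?_, fun h => ?_⟩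
          · have := this.1 h; omega
          · have := this.2 h; omega

/-- A circuit all of whose NOT gates outside `R` have a constant value. -/
theorem dec_of_circuit (C : Circuit W s) (a : (V → Prop) → W → Prop)
    (ha : ∀ w, (fun x => a x w) ∈ B) (ρ : ℕ) (R : Finset (Fin s)) (hR : R.card ≤ ρ)
    (hRn : ∀ i ∈ R, C.kind i = GateKind.not) (b : Fin s → Prop) (h : BF V)
    (hval : ∀ x, ∃ val, C.IsEval (a x) val ∧ (val C.out ↔ h x) ∧
      ∀ i, C.kind i = GateKind.not → i ∉ R → (val i ↔ b i)) :
    Dec B Z (2 ^ ρ * (2 * s + 1 + 2 * ρ)) ρ h := by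
  obtain ⟨M, hM, U, Y, hU, hY, hG, hx⟩ := dec_aux (Z := Z) C a ha ρ R b hR hRn
  refine ⟨U, Y, hU, hY, hG.mono (by omega) le_rfl subset_rfl, ?_⟩
  intro x
  obtain ⟨val, h1, h2, h3⟩ := hval x
  have hs : Semi C R b (a x) val := by
    intro i
    refine ⟨fun hk hi => h3 i hk hi, fun _ => ?_⟩
    obtain ⟨k1, k2, k3⟩ := h1 i
    cases hk : C.kind i with
    | and => rw [gateVal_and]; exact k1 hk
    | or => rw [gateVal_or]; exact k2 hk
    | not => rw [gateVal_not]; exact k3 hk
  have := hx x
  beta_reduce at this
  rw [← hs.eq_sv, h2] at this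
  exact this

end dec

end Pool.Agent.NegCount
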