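import Pool.Agent.Lib.MP_0a1b52_lc.Defs

/-!
Deterministic and randomized circuits for a Boolean function, and the number of NOT gates that
depend on the input.
-/

set_option autoImplicit false

namespace Pool.Agent.NegCount

open Pool.Agent.CliqueCircuits

/-- The (deterministic) circuit `C` computes the Boolean function `f`. -/
def Computes {n s : ℕ} (C : Circuit (Fin n) s) (f : (Fin n → Bool) → Bool) : Prop :=
  ∀ x : Fin n → Bool, ∃ val : Fin s → Prop,
    C.IsEval (fun i => x i = true) val ∧ (val C.out ↔ f x = true)

/-- The circuit `C`, whose inputs are the `n` bits of `x` and the `t` bits of the random string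
`r`, accepts: its output is true. -/
def Accepts {n t s : ℕ} (C : Circuit (Fin n ⊕ Fin t) s) (x : Fin n → Bool) (r : Fin t → Bool) :
    Prop :=
  ∃ val : Fin s → Prop,
    C.IsEval (Sum.elim (fun i => x i = true) (fun i => r i = true)) val ∧ val C.out

/-- The probability that the randomized circuit `C` accepts `x`, over a uniformly distributed
random string. -/
noncomputable def acceptProb {n t s : ℕ} (C : Circuit (Fin n ⊕ Fin t) s) (x : Fin n → Bool) : ℝ :=
  (Nat.card {r : Fin t → Bool // Accepts C x r} : ℝ) / 2 ^ t

/-- For the random string `r`, the value of gate `i` depends on the input: it is not the same for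
two inputs `x` and `x'`. -/
def DependsOnInput {n t s : ℕ} (C : Circuit (Fin n ⊕ Fin t) s) (r : Fin t → Bool) (i : Fin s) :
    Prop :=
  ∃ (x x' : Fin n → Bool) (val val' : Fin s → Prop),
    C.IsEval (Sum.elim (fun i => x i = true) (fun i => r i = true)) val ∧
    C.IsEval (Sum.elim (fun i => x' i = true) (fun i => r i = true)) val' ∧ ¬ (val i ↔ val' i)

/-- The number of NOT gates whose value, for the random string `r`, depends on the input. -/
noncomputable def numNotGiven {n t s : ℕ} (C : Circuit (Fin n ⊕ Fin t) s) (r : Fin t → Bool) : ℕ :=
  Nat.card {i : Fin s // C.kind i = GateKind.not ∧ DependsOnInput C r i}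

end Pool.Agent.NegCount
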