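import Mathlib

/-!
Sampling: a few random strings represent all acceptance probabilities up to a small error.
-/

set_option autoImplicit false

namespace Pool.Agent.NegCount

open Finset

theorem sum_pow_fun {Ω : Type} [Fintype Ω] (f : Ω → ℝ) (m : ℕ) :
    ∑ R : Fin m → Ω, ∏ i, f (R i) = (∑ r, f r) ^ m := by
  classical
  have h := Finset.prod_univ_sum (fun _ : Fin m => (Finset.univ : Finset Ω)) (fun _ r => f r)
  rw [Fintype.piFinset_univ, Finset.prod_const, Finset.card_univ, Fintype.card_fin] at h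
  exact h.symm

theorem exp_le_quad {y : ℝ} (h : |y| ≤ 1) : Real.exp y ≤ 1 + y + y ^ 2 := by
  have := Real.abs_exp_sub_one_sub_id_le h
  have h2 := (abs_le.1 this).2
  linarith

/-- `Y` has mean zero and absolute value at most `1`. -/
theorem mgf_le {Ω : Type} [Fintype Ω] (Y : Ω → ℝ) (hY : ∀ r, |Y r| ≤ 1) (h0 : ∑ r, Y r = 0)
    (l : ℝ) (hl : |l| ≤ 1) :
    ∑ r, Real.exp (l * Y r) ≤ Fintype.card Ω * Real.exp (l ^ 2) := by
  have h1 : ∀ r, Real.exp (l * Y r) ≤ 1 + l * Y r + l ^ 2 := by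
    intro r
    have ha : |l * Y r| ≤ 1 := by
      rw [abs_mul]
      calc |l| * |Y r| ≤ 1 * 1 := mul_le_mul hl (hY r) (abs_nonneg _) zero_le_one
        _ = 1 := one_mul 1
    refine (exp_le_quad ha).trans ?_
    have hy : (Y r) ^ 2 ≤ 1 := by
      rw [← sq_abs]
      have := hY r
      have h' := abs_nonneg (Y r)
      nlinarith
    have : (l * Y r) ^ 2 ≤ l ^ 2 := by
      rw [mul_pow]
      have := sq_nonneg l
      nlinarith
    linarith
  calc ∑ r, Real.exp (l * Y r) ≤ ∑ r, (1 + l * Y r + l ^ 2) := Finset.sum_le_sum fun r _ => h1 r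
    _ = Fintype.card Ω * (1 + l ^ 2) := by
        rw [Finset.sum_add_distrib, Finset.sum_add_distrib, ← Finset.mul_sum, h0, mul_zero,
          add_zero, Finset.sum_const, Finset.sum_const, Finset.card_univ]
        simp only [nsmul_eq_mul, mul_one]
        ring
    _ ≤ _ := by
        refine mul_le_mul_of_nonneg_left ?_ (Nat.cast_nonneg _)
        have := Real.add_one_le_exp (l ^ 2)
        linarith

open Classical in
/-- The number of samples at which `x` is accepted. -/
noncomputable def hits {X Ω : Type} {m : ℕ} (A : X → Ω → Prop) (R : Fin m → Ω) (x : X) : ℝ :=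
  ∑ i, if A x (R i) then 1 else 0

open Classical in
/-- The acceptance probability. -/
noncomputable def prob {X Ω : Type} [Fintype Ω] (A : X → Ω → Prop) (x : X) : ℝ :=
  (∑ r, if A x r then (1 : ℝ) else 0) / Fintype.card Ω

theorem exists_sample {X Ω : Type} [Fintype X] [Fintype Ω] [Nonempty Ω] (A : X → Ω → Prop)
    (η : ℝ) (h0 : 0 < η) (h1 : η ≤ 1) (m : ℕ)
    (hm : 2 * (Fintype.card X : ℝ) < Real.exp (η ^ 2 * m / 4)) :
    ∃ R : Fin m → Ω, ∀ x, |hits A R x - m * prob A x| ≤ η * m := by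
  classical
  have hΩ : (0 : ℝ) < Fintype.card Ω := by exact_mod_cast Fintype.card_pos
  let Y : X → Ω → ℝ := fun x r => (if A x r then 1 else 0) - prob A x
  have hp : ∀ x, 0 ≤ prob A x ∧ prob A x ≤ 1 := by
    intro x
    have h1 : (0 : ℝ) ≤ ∑ r, if A x r then (1 : ℝ) else 0 :=
      Finset.sum_nonneg fun r _ => by split_ifs <;> norm_num
    have h2 : (∑ r, if A x r then (1 : ℝ) else 0) ≤ Fintype.card Ω := by
      calc (∑ r, if A x r then (1 : ℝ) else 0) ≤ ∑ _r : Ω, (1 : ℝ) :=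
            Finset.sum_le_sum fun r _ => by split_ifs <;> norm_num
        _ = Fintype.card Ω := by simp
    exact ⟨div_nonneg h1 hΩ.le, (div_le_one hΩ).2 h2⟩
  have hY : ∀ x r, |Y x r| ≤ 1 := by
    intro x r
    have := hp x
    simp only [Y]
    rw [abs_le]
    split_ifs <;> constructor <;> linarith
  have hY0 : ∀ x, ∑ r, Y x r = 0 := by
    intro x
    simp only [Y]
    rw [Finset.sum_sub_distrib, Finset.sum_const, Finset.card_univ, nsmul_eq_mul]
    unfold prob
    rw [mul_div_cancel₀ _ hΩ.ne', sub_self]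
  have hsum : ∀ x (R : Fin m → Ω), ∑ i, Y x (R i) = hits A R x - m * prob A x := by
    intro x R
    simp only [Y]
    rw [Finset.sum_sub_distrib, Finset.sum_const, Finset.card_univ, Fintype.card_fin,
      nsmul_eq_mul]
    rfl
  let l : ℝ := η / 2
  have hl : |l| ≤ 1 := by
    simp only [l]
    rw [abs_le]; constructor <;> linarith
  have hl' : |-l| ≤ 1 := by rwa [abs_neg]
  let Φ : (Fin m → Ω) → ℝ := fun R =>
    ∑ x, (Real.exp (l * ∑ i, Y x (R i)) + Real.exp (-l * ∑ i, Y x (R i)))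
  have hΦ : ∑ R, Φ R ≤ 2 * Fintype.card X * (Fintype.card Ω : ℝ) ^ m * Real.exp (l ^ 2) ^ m := by
    have e1 : ∀ (c : ℝ), |c| ≤ 1 → ∀ x, ∑ R : Fin m → Ω, Real.exp (c * ∑ i, Y x (R i)) ≤
        (Fintype.card Ω : ℝ) ^ m * Real.exp (c ^ 2) ^ m := by
      intro c hc x
      have : ∀ R : Fin m → Ω, Real.exp (c * ∑ i, Y x (R i)) = ∏ i, Real.exp (c * Y x (R i)) := by
        intro R
        rw [Finset.mul_sum, Real.exp_sum]
      simp only [this]
      rw [sum_pow_fun (fun r => Real.exp (c * Y x r)) m, ← mul_pow]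
      exact pow_le_pow_left₀ (Finset.sum_nonneg fun r _ => (Real.exp_pos _).le)
        (mgf_le (Y x) (hY x) (hY0 x) c hc) m
    calc ∑ R, Φ R = ∑ x, (∑ R : Fin m → Ω, Real.exp (l * ∑ i, Y x (R i)) +
          ∑ R : Fin m → Ω, Real.exp (-l * ∑ i, Y x (R i))) := by
          simp only [Φ]
          rw [Finset.sum_comm]
          exact Finset.sum_congr rfl fun x _ => Finset.sum_add_distrib
      _ ≤ ∑ _x : X, ((Fintype.card Ω : ℝ) ^ m * Real.exp (l ^ 2) ^ m +
          (Fintype.card Ω : ℝ) ^ m * Real.exp ((-l) ^ 2) ^ m) :=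
          Finset.sum_le_sum fun x _ => add_le_add (e1 l hl x) (e1 (-l) hl' x)
      _ = _ := by
          rw [Finset.sum_const, Finset.card_univ, nsmul_eq_mul, neg_sq]
          ring
  obtain ⟨R, hR⟩ : ∃ R, Φ R ≤ 2 * Fintype.card X * Real.exp (l ^ 2) ^ m := by
    by_contra hcon
    push Not at hcon
    have h2 : ∑ _R : Fin m → Ω, (2 * Fintype.card X * Real.exp (l ^ 2) ^ m) < ∑ R, Φ R :=
      Finset.sum_lt_sum_of_nonempty Finset.univ_nonempty fun R _ => hcon R
    rw [Finset.sum_const, Finset.card_univ, Fintype.card_fun, Fintype.card_fin,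
      nsmul_eq_mul] at h2
    push_cast at h2
    linarith
  refine ⟨R, fun x => ?_⟩
  rw [← hsum]
  have hterm : Real.exp (l * |∑ i, Y x (R i)|) ≤ 2 * Fintype.card X * Real.exp (l ^ 2) ^ m := by
    refine le_trans ?_ hR
    have h3 : Real.exp (l * ∑ i, Y x (R i)) + Real.exp (-l * ∑ i, Y x (R i)) ≤ Φ R := by
      simp only [Φ]
      exact Finset.single_le_sum (f := fun x => Real.exp (l * ∑ i, Y x (R i)) +
        Real.exp (-l * ∑ i, Y x (R i)))
        (fun x _ => (add_pos (Real.exp_pos _) (Real.exp_pos _)).le) (Finset.mem_univ x)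
    refine le_trans ?_ h3
    rcases abs_cases (∑ i, Y x (R i)) with ⟨h, _⟩ | ⟨h, _⟩
    · rw [h]
      have := Real.exp_pos (-l * ∑ i, Y x (R i))
      linarith
    · rw [h]
      have := Real.exp_pos (l * ∑ i, Y x (R i))
      have e : l * -∑ i, Y x (R i) = -l * ∑ i, Y x (R i) := by ring
      rw [e]
      linarith
  have hlt : Real.exp (l * |∑ i, Y x (R i)|) < Real.exp (η ^ 2 * m / 2) := by
    refine lt_of_le_of_lt hterm ?_
    have e1 : Real.exp (l ^ 2) ^ m = Real.exp (η ^ 2 * m / 4) := by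
      rw [← Real.exp_nat_mul]
      congr 1
      simp only [l]
      ring
    have e2 : Real.exp (η ^ 2 * m / 2) = Real.exp (η ^ 2 * m / 4) * Real.exp (η ^ 2 * m / 4) := by
      rw [← Real.exp_add]
      congr 1
      ring
    rw [e1, e2]
    exact mul_lt_mul_of_pos_right hm (Real.exp_pos _)
  have h4 := Real.exp_lt_exp.1 hlt
  simp only [l] at h4
  have h5 : |∑ i, Y x (R i)| < η * m := by
    by_contra hc
    push Not at hc
    have : η / 2 * (η * m) ≤ η / 2 * |∑ i, Y x (R i)| :=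
      mul_le_mul_of_nonneg_left hc (by linarith)
    nlinarith
  exact h5.le

theorem two_pow_lt_exp (n : ℕ) (y : ℝ) (hy : (n : ℝ) + 1 ≤ y) : 2 * (2 : ℝ) ^ n < Real.exp y := by
  have h1 : Real.exp ((n : ℝ) + 1) ≤ Real.exp y := Real.exp_le_exp.2 hy
  refine lt_of_lt_of_le ?_ h1
  have h2 : Real.exp ((n : ℝ) + 1) = Real.exp 1 ^ (n + 1) := by
    rw [← Real.exp_nat_mul]; congr 1; push_cast; ring
  rw [h2, show (2 : ℝ) * 2 ^ n = 2 ^ (n + 1) by rw [pow_succ]; ring]
  exact pow_lt_pow_left₀ (by linarith [Real.add_one_lt_exp (x := 1) one_ne_zero])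
    zero_le_two (Nat.succ_ne_zero _)

end Pool.Agent.NegCount
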