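import Pool.Agent.Lib.MP_b573ec_adl.Thr
import Pool.Agent.Lib.MP_b573ec_adl.Sample
import Pool.Agent.Lib.MP_b573ec_adl.Defs

/-!
Derandomization with an exact count of the NOT gates.
-/

set_option autoImplicit false

namespace Pool.Agent.NegCount

open Pool.Agent.CliqueCircuits

theorem exists_isEval {W : Type} {s : ℕ} (C : Circuit W s) (y : W → Prop) :
    ∃ val, C.IsEval y val := by
  obtain ⟨val, h⟩ := exists_semi C Finset.univ (fun _ => True) y
  refine ⟨val, fun i => ?_⟩
  have hi := (h i).2 (Or.inr (Finset.mem_univ i))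
  refine ⟨fun hk => ?_, fun hk => ?_, fun hk => ?_⟩
  · rw [hk, gateVal_and] at hi; exact hi
  · rw [hk, gateVal_or] at hi; exact hi
  · rw [hk, gateVal_not] at hi; exact hi

theorem isEval_unique {W : Type} {s : ℕ} {C : Circuit W s} {y : W → Prop} {val val' : Fin s → Prop}
    (h : C.IsEval y val) (h' : C.IsEval y val') : val = val' :=
  Circuit.IsEvalM.unique ((C.isEval_iff _ _).1 h) ((C.isEval_iff _ _).1 h')

/-- Many functions with a decomposition. -/
theorem dec_list {V : Type} {B Z : Set (BF V)} {M ρ : ℕ} (L : List (BF V))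
    (h : ∀ g ∈ L, Dec B Z M ρ g) :
    ∃ U Y : List (BF V), U.length + L.length = L.length * 2 ^ ρ ∧ Y.length = L.length * 2 ^ ρ ∧
      Gen B Z (L.length * M) 0 ({g | g ∈ U} ∪ {g | g ∈ Y}) ∧
      ∀ x, cntL Y x = cntL U x + cntL L x := by
  induction L with
  | nil =>
    refine ⟨[], [], by simp, by simp, ?_, fun x => rfl⟩
    refine (Gen.zero (F := ∅) (Set.empty_subset _)).mono (by omega) le_rfl ?_
    rintro g (hg | hg) <;> simp at hg
  | cons a L ih =>
    obtain ⟨U, Y, h1, h2, h3, h4⟩ := ih fun g hg => h g (List.mem_cons_of_mem _ hg)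
    obtain ⟨U', Y', h1', h2', h3', h4'⟩ := h a List.mem_cons_self
    refine ⟨U ++ U', Y ++ Y', ?_, ?_, ?_, ?_⟩
    · rw [List.length_append, List.length_cons, Nat.add_mul]; omega
    · rw [List.length_append, List.length_cons, Nat.add_mul]; omega
    · refine (h3.union h3').mono (by rw [List.length_cons, Nat.add_mul, Nat.one_mul]) le_rfl ?_
      rintro g (hg | hg)
      · rcases List.mem_append.1 hg with h | h
        · exact Or.inl (Or.inl h)
        · exact Or.inr (Or.inl h)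
      · rcases List.mem_append.1 hg with h | h
        · exact Or.inl (Or.inr h)
        · exact Or.inr (Or.inr h)
    · intro x
      rw [cntL_append, cntL_append, h4]
      by_cases hx : a x
      · rw [cntL_cons_pos _ hx, (h4' x).1 hx]; omega
      · rw [cntL_cons_neg _ hx, (h4' x).2 hx]; omega

/-- The combinatorial core: if the number of true functions among those in `L`, each with at most
`2 ^ ρ - 1` drops, is at least `Q + T` where `f` is true and at most `Q` where `f` is false, then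
`f` is computed with `σ` NOT gates, if `(2 ^ ρ - 1) |L| < 2 ^ σ T`. -/
theorem core {V : Type} {B Z : Set (BF V)} {M ρ σ : ℕ} (L : List (BF V))
    (h : ∀ g ∈ L, Dec B Z M ρ g) (Q T : ℕ) (hT : 1 ≤ T)
    (hσ : (2 ^ ρ - 1) * L.length < 2 ^ σ * T) (f : BF V) (h1 : ∀ x, f x → Q + T ≤ cntL L x)
    (h0 : ∀ x, ¬ f x → cntL L x ≤ Q) :
    Gen B Z (L.length * M + 2 * ((L.length * 2 ^ ρ) * (L.length * 2 ^ ρ + 1) + 2) + 5 * 2 ^ σ) σ
      {f} := by
  obtain ⟨U, Y, hU, hY, hG, hx⟩ := dec_list L h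
  have hp : 1 ≤ 2 ^ ρ := Nat.one_le_two_pow
  have hUY : U.length ≤ L.length * 2 ^ ρ := by omega
  have hU' : U.length = (2 ^ ρ - 1) * L.length := by
    rw [Nat.sub_mul, Nat.one_mul, Nat.mul_comm (2 ^ ρ)]; omega
  have g1 : Gen (B ∪ ({g | g ∈ U} ∪ {g | g ∈ Y})) Z (U.length * (U.length + 1) + 2) 0
      {g | ∃ k, g = thr U k} := thr_gen U fun g hg => Or.inr (Or.inl hg)
  have g2 : Gen (B ∪ ({g | g ∈ U} ∪ {g | g ∈ Y})) Z (Y.length * (Y.length + 1) + 2) 0
      {g | ∃ k, g = thr Y k} := thr_gen Y fun g hg => Or.inr (Or.inr hg)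
  have g3 := hG.trans (g1.union g2)
  have g4 := mux_gen (Z := Z) σ (B ∪ (({g | g ∈ U} ∪ {g | g ∈ Y}) ∪ ({g | ∃ k, g = thr U k} ∪
    {g | ∃ k, g = thr Y k}))) (fun k => thr U (k * T)) (fun k => thr Y (k * T + Q))
    (fun k _ _ => Or.inr (Or.inr (Or.inl ⟨_, rfl⟩)))
    (fun k _ _ => Or.inr (Or.inr (Or.inr ⟨_, rfl⟩)))
  have e : mux σ (fun k => thr U (k * T)) (fun k => thr Y (k * T + Q)) = f := by
    funext x
    apply propext
    have hE := cntL_le U x
    have hq : cntL U x / T < 2 ^ σ := by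
      rw [Nat.div_lt_iff_lt_mul (by omega)]
      omega
    rw [mux_iff σ _ _ x (cntL U x / T) hq]
    · show (cntL U x / T + 1) * T + Q ≤ cntL Y x ↔ f x
      have d1 : cntL U x / T * T ≤ cntL U x := Nat.div_mul_le_self _ _
      have d2 : cntL U x < (cntL U x / T + 1) * T := by
        have := Nat.lt_div_mul_add (a := cntL U x) (b := T) (by omega)
        rw [Nat.add_mul, Nat.one_mul]; omega
      have hx' := hx x
      constructor
      · intro h
        by_contra hf
        have := h0 x hf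
        omega
      · intro hf
        have := h1 x hf
        rw [Nat.add_mul, Nat.one_mul]
        omega
    · intro k _ hk
      show k * T ≤ cntL U x
      exact (Nat.mul_le_mul_right T hk).trans (Nat.div_mul_le_self _ _)
    · intro k hk _ h
      have h' : k * T ≤ cntL U x := h
      have := (Nat.le_div_iff_mul_le (by omega)).2 h'
      omega
  rw [e] at g4
  refine (g3.trans g4).mono ?_ (by omega) Set.subset_union_right
  have m1 : U.length * (U.length + 1) ≤ (L.length * 2 ^ ρ) * (L.length * 2 ^ ρ + 1) :=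
    Nat.mul_le_mul hUY (by omega)
  rw [hY]
  omega

/-- The Boolean function of `x` computed by a randomized circuit with the random string `r`. -/
noncomputable def slice {n t s : ℕ} (C : Circuit (Fin n ⊕ Fin t) s) (r : Fin t → Bool) :
    BF (Fin n) := fun x => by
  classical
  exact Accepts C (fun i => decide (x i)) r

theorem dec_slice {n t s ρ : ℕ} (C : Circuit (Fin n ⊕ Fin t) s) (r : Fin t → Bool)
    (hρ : numNotGiven C r ≤ ρ) (B Z : Set (BF (Fin n))) (hB : vars (Fin n) ⊆ B)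
    (hBt : (fun _ => True) ∈ B) (hBf : (fun _ => False) ∈ B) :
    Dec B Z (2 ^ ρ * (2 * s + 1 + 2 * ρ)) ρ (slice C r) := by
  classical
  let R : Finset (Fin s) :=
    Finset.univ.filter fun i => C.kind i = GateKind.not ∧ DependsOnInput C r i
  have hRc : R.card ≤ ρ := by
    refine le_trans (le_of_eq ?_) hρ
    unfold numNotGiven
    rw [Nat.card_eq_fintype_card, Fintype.card_subtype]
  obtain ⟨v0, hv0⟩ := exists_isEval C
    (Sum.elim (fun _ : Fin n => false = true) (fun i => r i = true))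
  refine dec_of_circuit C (fun x => Sum.elim x (fun i => r i = true)) ?_ ρ R hRc
    (fun i hi => (Finset.mem_filter.1 hi).2.1) v0 (slice C r) ?_
  · intro w
    cases w with
    | inl v => exact hB ⟨v, rfl⟩
    | inr j =>
      by_cases hj : r j = true
      · have : (fun x : Fin n → Prop => Sum.elim x (fun i => r i = true) (Sum.inr j)) =
            fun _ => True := by
          funext x
          simp [hj]
        rw [this]
        exact hBt
      · have : (fun x : Fin n → Prop => Sum.elim x (fun i => r i = true) (Sum.inr j)) =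
            fun _ => False := by
          funext x
          simp [hj]
        rw [this]
        exact hBf
  · intro x
    have ex : (fun i => (decide (x i) : Bool) = true) = x := by
      funext i; simp
    obtain ⟨val, hval⟩ := exists_isEval C (Sum.elim x (fun i => r i = true))
    refine ⟨val, hval, ?_, ?_⟩
    · constructor
      · intro h
        refine ⟨val, ?_, h⟩
        rw [ex]; exact hval
      · rintro ⟨val', h1, h2⟩
        rw [ex] at h1
        rwa [isEval_unique hval h1]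
    · intro i hk hi
      by_contra hne
      apply hi
      refine Finset.mem_filter.2 ⟨Finset.mem_univ _, hk, fun i => decide (x i), fun _ => false,
        val, v0, ?_, hv0, hne⟩
      rw [ex]; exact hval

theorem derand {n t s ρ σ : ℕ} (γ : ℝ) (hγ1 : γ ≤ 1)
    (f : (Fin n → Bool) → Bool) (C : Circuit (Fin n ⊕ Fin t) s)
    (hρ : ∀ r, numNotGiven C r ≤ ρ)
    (hgap : ∀ x y, f x = true → f y = false → acceptProb C y + γ ≤ acceptProb C x)
    (hσ : (2 : ℝ) ^ ρ - 1 < γ * 2 ^ σ) :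
    ∃ (s' : ℕ) (D : Circuit (Fin n) s'), Computes D f ∧ D.numNot ≤ σ ∧
      (s' : ℝ) ≤ 40000 * (n + 1) ^ 2 * 4 ^ ρ * (s + ρ) / (γ - (2 ^ ρ - 1) / 2 ^ σ) ^ 4 +
        5 * 2 ^ σ := by
  classical
  have hs1 : 1 ≤ s := by
    have := C.out.isLt
    omega
  have h2σ : (0 : ℝ) < 2 ^ σ := by positivity
  have h2ρ : (1 : ℝ) ≤ 2 ^ ρ := one_le_pow₀ (by norm_num)
  obtain ⟨δ, hδ⟩ : ∃ δ : ℝ, δ = γ - (2 ^ ρ - 1) / 2 ^ σ := ⟨_, rfl⟩
  have hδ0 : 0 < δ := by
    rw [hδ, sub_pos, div_lt_iff₀ h2σ]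
    exact hσ
  have hδ1 : δ ≤ 1 := by
    have : 0 ≤ (2 ^ ρ - 1 : ℝ) / 2 ^ σ := div_nonneg (by linarith) h2σ.le
    linarith
  rw [← hδ]
  -- conversion of a program into a circuit
  have conv : ∀ {m : ℕ} (g : BF (Fin n)), Gen (vars (Fin n)) ∅ m σ {g} →
      (∀ x : Fin n → Bool, g (fun i => x i = true) ↔ f x = true) →
      ∃ (s' : ℕ) (D : Circuit (Fin n) s'), Computes D f ∧ D.numNot ≤ σ ∧ s' ≤ m + 1 := by
    intro m g hg hgf
    obtain ⟨s', D, F, h1, h2, h3, h4⟩ := hg.circuit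
    refine ⟨s', D, ?_, ?_, h1⟩
    · intro x
      exact ⟨_, h2 _, by rw [h3]; exact hgf x⟩
    · refine le_trans (le_of_eq ?_) h4
      unfold Circuit.numNot
      refine Nat.card_congr (Equiv.subtypeEquivRight fun i => ?_)
      constructor
      · intro h
        exact ⟨h, fun ⟨a, ha, _⟩ => absurd ha (Set.notMem_empty a)⟩
      · intro h
        exact h.1
  -- the number of samples
  obtain ⟨m, hm⟩ : ∃ m : ℕ, m = ⌈64 * ((n : ℝ) + 1) / δ ^ 2⌉₊ := ⟨_, rfl⟩
  have hδ2 : 0 < δ ^ 2 := by positivity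
  have hδ21 : δ ^ 2 ≤ 1 := pow_le_one₀ hδ0.le hδ1
  have hm1 : 64 * ((n : ℝ) + 1) / δ ^ 2 ≤ m := by rw [hm]; exact Nat.le_ceil _
  have hm64 : (64 : ℝ) ≤ 64 * ((n : ℝ) + 1) / δ ^ 2 := by
    rw [le_div_iff₀ hδ2]
    have : (0 : ℝ) ≤ n := Nat.cast_nonneg n
    nlinarith
  have hm2 : (m : ℝ) ≤ 65 * (n + 1) / δ ^ 2 := by
    have h1 : (m : ℝ) < 64 * ((n : ℝ) + 1) / δ ^ 2 + 1 := by
      rw [hm]; exact Nat.ceil_lt_add_one (by positivity)
    have h2 : (1 : ℝ) ≤ (n + 1) / δ ^ 2 := by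
      rw [le_div_iff₀ hδ2]
      have : (0 : ℝ) ≤ n := Nat.cast_nonneg n
      nlinarith
    have h3 : 65 * ((n : ℝ) + 1) / δ ^ 2 = 64 * ((n : ℝ) + 1) / δ ^ 2 + (n + 1) / δ ^ 2 := by ring
    linarith
  -- the size bound
  have size : ∀ s' : ℕ, s' ≤ 2 + (m * (2 ^ ρ * (2 * s + 1 + 2 * ρ)) +
      2 * ((m * 2 ^ ρ) * (m * 2 ^ ρ + 1) + 2) + 5 * 2 ^ σ) + 1 →
      (s' : ℝ) ≤ 40000 * (n + 1) ^ 2 * 4 ^ ρ * (s + ρ) / δ ^ 4 + 5 * 2 ^ σ := by
    intro s' hs'
    obtain ⟨N, hN⟩ : ∃ N : ℝ, N = m * 2 ^ ρ := ⟨_, rfl⟩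
    have hN1 : 1 ≤ N := by
      rw [hN]
      have : (1 : ℝ) ≤ m := by linarith
      nlinarith
    have hN2 : N ^ 2 ≤ 4225 * ((n + 1) ^ 2 * 4 ^ ρ / δ ^ 4) := by
      have h1 : N ≤ 65 * (n + 1) / δ ^ 2 * 2 ^ ρ := by
        rw [hN]
        exact mul_le_mul_of_nonneg_right hm2 (by positivity)
      calc N ^ 2 ≤ (65 * (n + 1) / δ ^ 2 * 2 ^ ρ) ^ 2 := pow_le_pow_left₀ (by linarith) h1 2
        _ = _ := by
            have : (4 : ℝ) ^ ρ = (2 ^ ρ) ^ 2 := by rw [← pow_mul, mul_comm, pow_mul]; norm_num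
            rw [this]
            field_simp
            ring
    have hsr : (s' : ℝ) ≤ 2 + (N * (2 * s + 1 + 2 * ρ) + 2 * (N * (N + 1) + 2) + 5 * 2 ^ σ) + 1 := by
      have : (s' : ℝ) ≤ ((2 + (m * (2 ^ ρ * (2 * s + 1 + 2 * ρ)) +
        2 * ((m * 2 ^ ρ) * (m * 2 ^ ρ + 1) + 2) + 5 * 2 ^ σ) + 1 : ℕ) : ℝ) := by
        exact_mod_cast hs'
      refine this.trans (le_of_eq ?_)
      push_cast
      rw [hN]
      ring
    have hsρ : (1 : ℝ) ≤ s + ρ := by
      have h1 : (1 : ℝ) ≤ s := by exact_mod_cast hs1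
      have h2 : (0 : ℝ) ≤ ρ := Nat.cast_nonneg ρ
      linarith
    have h3 : (s' : ℝ) ≤ 9 * (s + ρ) * N ^ 2 + 5 * 2 ^ σ := by
      have a1 : N ≤ N ^ 2 := by nlinarith
      have a2 : 1 ≤ N ^ 2 := by nlinarith
      have a3 : N * (2 * s + 1 + 2 * ρ) ≤ N ^ 2 * (2 * (s + ρ) + 1) := by
        have : (0 : ℝ) ≤ 2 * (s + ρ) + 1 := by linarith
        nlinarith
      have a4 : N ^ 2 ≤ (s + ρ) * N ^ 2 := by nlinarith
      have a5 : (s' : ℝ) ≤ 2 + (N ^ 2 * (2 * (s + ρ) + 1) + 2 * (N ^ 2 + N ^ 2 + 2) + 5 * 2 ^ σ) + 1 := by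
        nlinarith
      nlinarith
    have h4 : 9 * ((s : ℝ) + ρ) * N ^ 2 ≤ 9 * (s + ρ) * (4225 * ((n + 1) ^ 2 * 4 ^ ρ / δ ^ 4)) :=
      mul_le_mul_of_nonneg_left hN2 (by linarith)
    have h5 : 9 * ((s : ℝ) + ρ) * (4225 * ((n + 1) ^ 2 * 4 ^ ρ / δ ^ 4)) ≤
        40000 * (n + 1) ^ 2 * 4 ^ ρ * (s + ρ) / δ ^ 4 := by
      have e : 40000 * ((n : ℝ) + 1) ^ 2 * 4 ^ ρ * (s + ρ) / δ ^ 4 =
        40000 * ((s + ρ) * ((n + 1) ^ 2 * 4 ^ ρ / δ ^ 4)) := by ring
      have e' : 9 * ((s : ℝ) + ρ) * (4225 * ((n + 1) ^ 2 * 4 ^ ρ / δ ^ 4)) =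
        38025 * ((s + ρ) * ((n + 1) ^ 2 * 4 ^ ρ / δ ^ 4)) := by ring
      rw [e, e']
      have : 0 ≤ ((s : ℝ) + ρ) * ((n + 1) ^ 2 * 4 ^ ρ / δ ^ 4) := by positivity
      linarith
    linarith
  by_cases hall : ∀ x, f x = true
  · -- a constant function
    obtain ⟨s', D, h1, h2, h3⟩ := conv (fun _ => True)
      ((Gen.true (B := vars (Fin n)) (Z := ∅)).mono le_rfl (Nat.zero_le σ) subset_rfl)
      (fun x => by simp [hall x])
    refine ⟨s', D, h1, h2, size s' (by omega)⟩
  · push Not at hall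
    -- the largest acceptance probability of a negative input
    obtain ⟨y0, hy0f, hy0⟩ : ∃ y, f y = false ∧
        ∀ y', f y' = false → acceptProb C y' ≤ acceptProb C y := by
      have hne : (Finset.univ.filter fun y => f y = false).Nonempty := by
        obtain ⟨y, hy⟩ := hall
        exact ⟨y, Finset.mem_filter.2 ⟨Finset.mem_univ _, by simpa using hy⟩⟩
      obtain ⟨y, hy, h⟩ := Finset.exists_max_image _ (acceptProb C) hne
      exact ⟨y, (Finset.mem_filter.1 hy).2, fun y' hy' =>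
        h y' (Finset.mem_filter.2 ⟨Finset.mem_univ _, hy'⟩)⟩
    have hprob : ∀ x, prob (Accepts C) x = acceptProb C x := by
      intro x
      unfold prob acceptProb
      have e1 : ((Fintype.card (Fin t → Bool) : ℕ) : ℝ) = 2 ^ t := by
        rw [Fintype.card_fun, Fintype.card_bool, Fintype.card_fin]
        push_cast
        rfl
      rw [e1, Nat.card_eq_fintype_card, Fintype.card_subtype]
      congr 1
      rw [Finset.card_filter]
      push_cast
      rfl
    have hcardX : (Fintype.card (Fin n → Bool) : ℝ) = 2 ^ n := by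
      rw [Fintype.card_fun, Fintype.card_bool, Fintype.card_fin]
      push_cast
      rfl
    obtain ⟨R, hR⟩ := exists_sample (Accepts C) (δ / 4) (by positivity) (by linarith) m (by
      rw [hcardX]
      refine two_pow_lt_exp n _ ?_
      rw [div_le_iff₀ hδ2] at hm1
      nlinarith)
    -- the parameters
    have hq0 : 0 ≤ acceptProb C y0 := by
      unfold acceptProb
      positivity
    have hγ0 : 0 < γ := by
      have : 0 ≤ (2 ^ ρ - 1 : ℝ) / 2 ^ σ := div_nonneg (by linarith) h2σ.le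
      linarith
    have hγδ : δ ≤ γ := by
      have : 0 ≤ (2 ^ ρ - 1 : ℝ) / 2 ^ σ := div_nonneg (by linarith) h2σ.le
      linarith
    have hm0 : (0 : ℝ) ≤ m := Nat.cast_nonneg m
    obtain ⟨Q, hQ⟩ : ∃ Q : ℕ, Q = ⌊(acceptProb C y0 + δ / 4) * m⌋₊ := ⟨_, rfl⟩
    obtain ⟨T, hT⟩ : ∃ T : ℕ, T = ⌊(γ - δ / 2) * m⌋₊ := ⟨_, rfl⟩
    have hQ1 : (Q : ℝ) ≤ (acceptProb C y0 + δ / 4) * m := by
      rw [hQ]; exact Nat.floor_le (by positivity)
    have hQ2 : ∀ k : ℕ, (k : ℝ) ≤ (acceptProb C y0 + δ / 4) * m → k ≤ Q := by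
      intro k hk
      rw [hQ]; exact Nat.le_floor hk
    have hT1 : (T : ℝ) ≤ (γ - δ / 2) * m := by
      rw [hT]; exact Nat.floor_le (mul_nonneg (by linarith) hm0)
    have hT2 : (γ - δ / 2) * m < T + 1 := by
      rw [hT]; exact Nat.lt_floor_add_one _
    have hmδ : 32 ≤ (δ / 2) * m := by
      rw [div_le_iff₀ hδ2] at hm1
      have h0n : (0 : ℝ) ≤ n := Nat.cast_nonneg n
      have h64 : 64 ≤ m * δ ^ 2 := by nlinarith
      have : m * δ ^ 2 ≤ m * δ := by nlinarith [mul_nonneg hm0 hδ0.le]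
      nlinarith
    have hTpos : 1 ≤ T := by
      have : (0 : ℝ) < T := by nlinarith
      exact_mod_cast this
    let L : List (BF (Fin n)) := (List.ofFn R).map (slice C)
    have hLlen : L.length = m := by simp [L]
    have hLcnt : ∀ x : Fin n → Prop, (cntL L x : ℝ) = hits (Accepts C) R (fun i => decide (x i)) := by
      intro x
      unfold cntL hits
      simp only [L, List.map_map]
      rw [List.map_ofFn, List.sum_ofFn]
      push_cast
      refine Finset.sum_congr rfl fun i _ => ?_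
      simp only [Function.comp]
      by_cases h : slice C (R i) x
      · rw [if_pos h, if_pos (show Accepts C (fun i => decide (x i)) (R i) from h)]; simp
      · rw [if_neg h, if_neg (show ¬ Accepts C (fun i => decide (x i)) (R i) from h)]; simp
    let f' : BF (Fin n) := fun x => f (fun i => decide (x i)) = true
    have hcore := core (B := vars (Fin n) ∪ ({fun _ => True} ∪ {fun _ => False})) (Z := ∅)
      (σ := σ) (M := 2 ^ ρ * (2 * s + 1 + 2 * ρ)) (ρ := ρ) L (by
        intro g hg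
        obtain ⟨r, _, rfl⟩ := List.mem_map.1 hg
        exact dec_slice C r (hρ r) _ _ Set.subset_union_left (Or.inr (Or.inl rfl))
          (Or.inr (Or.inr rfl))) Q T hTpos (by
        rw [hLlen]
        have : (((2 ^ ρ - 1) * m : ℕ) : ℝ) < ((2 ^ σ * T : ℕ) : ℝ) := by
          have hsub : ((2 ^ ρ - 1 : ℕ) : ℝ) = 2 ^ ρ - 1 := by
            rw [Nat.cast_sub Nat.one_le_two_pow]
            push_cast
            rfl
          push_cast [hsub]
          have hK : (2 ^ ρ - 1 : ℝ) = (γ - δ) * 2 ^ σ := by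
            rw [hδ]
            field_simp
            ring
          rw [hK]
          have h6 : (γ - δ) * m < T := by nlinarith
          have := mul_lt_mul_of_pos_left h6 h2σ
          nlinarith
        exact_mod_cast this) f' (by
        intro x hx
        have h7 := hR (fun i => decide (x i))
        rw [← hLcnt, hprob] at h7
        have h8 := hgap _ y0 hx hy0f
        have h9 := (abs_le.1 h7).1
        have : ((Q + T : ℕ) : ℝ) ≤ (cntL L x : ℝ) := by
          push_cast
          nlinarith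
        exact_mod_cast this) (by
        intro x hx
        have hx' : f (fun i => decide (x i)) = false := by simpa [f'] using hx
        have h7 := hR (fun i => decide (x i))
        rw [← hLcnt, hprob] at h7
        have h8 := hy0 _ hx'
        have h9 := (abs_le.1 h7).2
        apply hQ2
        nlinarith)
    rw [hLlen] at hcore
    have hbase := (Gen.true (B := vars (Fin n)) (Z := ∅)).union
      (Gen.false (B := vars (Fin n)) (Z := ∅))
    obtain ⟨s', D, h1, h2, h3⟩ := conv f'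
      ((hbase.trans hcore).mono le_rfl (by omega) Set.subset_union_right) (fun x => by simp [f'])
    refine ⟨s', D, h1, h2, size s' ?_⟩
    omega

end Pool.Agent.NegCount
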