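import Pool.Agent.Lib.MP_b573ec_adl.Derand

/-!
The gap is optimal: a symmetric function with `2 ^ σ` drops.
-/

set_option autoImplicit false

namespace Pool.Agent.NegCount

open Pool.Agent.CliqueCircuits

/-- The number of ones of an input. -/
noncomputable def ones {n : ℕ} (x : Fin n → Prop) : ℕ :=
  cntL ((List.finRange n).map fun i (y : Fin n → Prop) => y i) x

open Classical in
theorem cntL_finRange {V : Type} {N : ℕ} (F : Fin N → BF V) (x : V → Prop) :
    cntL ((List.finRange N).map F) x = (Finset.univ.filter fun i => F i x).card := by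
  unfold cntL
  rw [List.map_map, Finset.card_filter, ← List.sum_toFinset _ (List.nodup_finRange N)]
  · refine Finset.sum_congr ?_ fun i _ => rfl
    ext i; simp

theorem cntL_finRange' {V : Type} {N : ℕ} (F : Fin N → BF V) (x : V → Prop) (P : Fin N → Prop)
    [DecidablePred P] (h : ∀ i, F i x ↔ P i) :
    cntL ((List.finRange N).map F) x = (Finset.univ.filter P).card := by
  rw [cntL_finRange]
  refine congrArg Finset.card ?_
  ext i
  simp [h]

/-- The example: the number of ones is `2 k` with `k < D`. -/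
noncomputable def evenFn (n D : ℕ) (x : Fin n → Prop) : Prop := ∃ k < D, ones x = 2 * k

theorem ones_chain {n j : ℕ} (hj : j ≤ n) : ones (fun i : Fin n => i.val < j) = j := by
  classical
  unfold ones
  rw [cntL_finRange' _ _ (fun i : Fin n => i.val < j) (fun i => Iff.rfl)]
  have : (Finset.univ.filter fun i : Fin n => i.val < j) =
      (Finset.univ : Finset (Fin j)).map (Fin.castLEEmb hj) := by
    ext i
    simp only [Finset.mem_filter, Finset.mem_univ, true_and, Finset.mem_map]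
    constructor
    · intro h
      exact ⟨⟨i.val, h⟩, rfl⟩
    · rintro ⟨a, rfl⟩
      exact a.isLt
  rw [this, Finset.card_map, Finset.card_univ, Fintype.card_fin]

/-- Deterministic circuits with `σ` NOT gates do not compute a function with `2 ^ σ` drops. -/
theorem no_dec {n σ M : ℕ} (hn : 2 ^ (σ + 1) ≤ n + 1)
    (h : Dec (vars (Fin n)) ∅ M σ (evenFn n (2 ^ σ))) : False := by
  obtain ⟨U, Y, hU, hY, hG, hx⟩ := h
  have hm := hG.monoFn vars_mono
  have e2 : 2 ^ (σ + 1) = 2 * 2 ^ σ := by rw [pow_succ]; ring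
  have hp : 1 ≤ 2 ^ σ := Nat.one_le_two_pow
  let c : ℕ → Fin n → Prop := fun j i => i.val < j
  have hc : ∀ j, (∀ v, c j v → c (j + 1) v) := fun j v h => Nat.lt_succ_of_lt h
  have hUm : ∀ j, cntL U (c j) ≤ cntL U (c (j + 1)) :=
    fun j => cntL_mono (fun g hg => hm g (Or.inl hg)) (hc j)
  have hYm : ∀ j, cntL Y (c j) ≤ cntL Y (c (j + 1)) :=
    fun j => cntL_mono (fun g hg => hm g (Or.inr hg)) (hc j)
  have hodd : ∀ i, i < 2 ^ σ → i + 1 ≤ cntL U (c (2 * i + 1)) := by
    intro i
    induction i with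
    | zero =>
      intro _
      have h1 := (hx (c 0)).1 ⟨0, hp, by rw [ones_chain (by omega)]⟩
      have h2 := (hx (c 1)).2 (by
        rintro ⟨k, _, hk⟩
        rw [ones_chain (by omega)] at hk
        omega)
      have h3 := hYm 0
      rw [show 2 * 0 + 1 = 1 by rfl]
      rw [show 0 + 1 = 1 by rfl] at h3
      omega
    | succ i ih =>
      intro hi
      have h0 := ih (by omega)
      have h0' := hUm (2 * i + 1)
      rw [show 2 * i + 1 + 1 = 2 * (i + 1) by ring] at h0'
      have h1 := (hx (c (2 * (i + 1)))).1 ⟨i + 1, hi, by rw [ones_chain (by omega)]⟩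
      have h2 := (hx (c (2 * (i + 1) + 1))).2 (by
        rintro ⟨k, _, hk⟩
        rw [ones_chain (by omega)] at hk
        omega)
      have h3 := hYm (2 * (i + 1))
      omega
  have h1 := hodd (2 ^ σ - 1) (by omega)
  have h2 := cntL_le U (c (2 * (2 ^ σ - 1) + 1))
  omega

/-- A deterministic circuit gives a decomposition. -/
theorem dec_det {n s : ℕ} (D : Circuit (Fin n) s) (h : BF (Fin n))
    (hD : ∀ x, ∃ val, D.IsEval x val ∧ (val D.out ↔ h x)) :
    Dec (vars (Fin n)) ∅ (2 ^ D.numNot * (2 * s + 1 + 2 * D.numNot)) D.numNot h := by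
  classical
  have hv : ∀ w : Fin n, (fun x : Fin n → Prop => x w) ∈ vars (Fin n) := fun w => ⟨w, rfl⟩
  refine dec_of_circuit D (fun x => x) hv D.numNot
    (Finset.univ.filter fun i => D.kind i = GateKind.not) (le_of_eq ?_)
    (fun i hi => (Finset.mem_filter.1 hi).2) (fun _ => True) h ?_
  · unfold Circuit.numNot
    rw [Nat.card_eq_fintype_card, Fintype.card_subtype]
  · intro x
    obtain ⟨val, h1, h2⟩ := hD x
    refine ⟨val, h1, h2, fun i hk hi => ?_⟩
    exact absurd (Finset.mem_filter.2 ⟨Finset.mem_univ i, hk⟩) hi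

/-- Padding a decomposition. -/
theorem Dec.pad {V : Type} {B Z : Set (BF V)} {M ρ ρ' : ℕ} {h : BF V} (hd : Dec B Z M ρ h)
    (hρ : ρ ≤ ρ') : Dec B Z (M + 1) ρ' h := by
  obtain ⟨U, Y, hU, hY, hG, hx⟩ := hd
  have hle : 2 ^ ρ ≤ 2 ^ ρ' := Nat.pow_le_pow_right (by omega) hρ
  refine ⟨U ++ List.replicate (2 ^ ρ' - 2 ^ ρ) (fun _ => False),
    Y ++ List.replicate (2 ^ ρ' - 2 ^ ρ) (fun _ => False), ?_, ?_, ?_, ?_⟩
  · rw [List.length_append, List.length_replicate]; omega
  · rw [List.length_append, List.length_replicate]; omega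
  · refine (hG.union Gen.false).mono le_rfl le_rfl ?_
    rintro g (hg | hg)
    · rcases List.mem_append.1 hg with h | h
      · exact Or.inl (Or.inl h)
      · exact Or.inr (List.mem_replicate.1 h).2
    · rcases List.mem_append.1 hg with h | h
      · exact Or.inl (Or.inr h)
      · exact Or.inr (List.mem_replicate.1 h).2
  · intro x
    have h0 : cntL (List.replicate (2 ^ ρ' - 2 ^ ρ) (fun _ => False : BF V)) x = 0 := by
      apply cntL_none
      intro g hg
      rw [(List.mem_replicate.1 hg).2]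
      exact id
    rw [cntL_append, cntL_append, h0, add_zero, add_zero]
    exact hx x

/-! ### The randomized circuit -/

section random

variable {n σ : ℕ}

/-- The inputs and the random bits. -/
abbrev RV (n σ : ℕ) := Fin n ⊕ Fin σ

/-- The functions of the random bits only. -/
def onlyR (n σ : ℕ) : Set (BF (RV n σ)) :=
  {g | ∃ g' : BF (Fin σ), g = fun y => g' (fun j => y (Sum.inr j))}

/-- The random string is `u`. -/
def isU (n : ℕ) {σ : ℕ} (u : Fin σ → Bool) : BF (RV n σ) :=
  fun y => ∀ j, (y (Sum.inr j) ↔ u j = true)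

theorem isU_gen (B : Set (BF (RV n σ))) (hB : vars (RV n σ) ⊆ B) :
    Gen B (onlyR n σ) (σ + 2 ^ σ) 0 {g | ∃ u, g = isU n u} := by
  have h1 : Gen B (onlyR n σ) (Fintype.card (Fin σ) * 1) 0
      (⋃ j : Fin σ, {fun y : RV n σ → Prop => ¬ y (Sum.inr j)}) := by
    apply Gen.iUnion
    intro j
    exact Gen.free (g := fun y : RV n σ → Prop => y (Sum.inr j)) (hB ⟨_, rfl⟩)
      ⟨fun r => r j, rfl⟩
  have h2 : Gen (B ∪ ⋃ j : Fin σ, {fun y : RV n σ → Prop => ¬ y (Sum.inr j)}) (onlyR n σ)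
      (Fintype.card (Fin σ → Bool) * 1) 0 (⋃ u : Fin σ → Bool, {isU n u}) := by
    apply Gen.iUnion
    intro u
    have h3 := Gen.and (B := B ∪ ⋃ j : Fin σ, {fun y : RV n σ → Prop => ¬ y (Sum.inr j)})
      (Z := onlyR n σ) {g | ∃ j, (u j = true ∧ g = fun y => y (Sum.inr j)) ∨
        (u j = false ∧ g = fun y => ¬ y (Sum.inr j))} (by
        rintro g ⟨j, (⟨_, rfl⟩ | ⟨_, rfl⟩)⟩
        · exact Or.inl (hB ⟨_, rfl⟩)
        · exact Or.inr (Set.mem_iUnion.2 ⟨j, rfl⟩))
    refine h3.mono le_rfl le_rfl ?_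
    intro g hg
    rw [Set.mem_singleton_iff] at hg ⊢
    rw [hg]
    funext y
    apply propext
    constructor
    · rintro h g ⟨j, (⟨h1, rfl⟩ | ⟨h1, rfl⟩)⟩
      · exact (h j).2 h1
      · intro hy
        have := (h j).1 hy
        rw [h1] at this
        exact absurd this (by simp)
    · intro h j
      cases hu : u j with
      | true => exact ⟨fun _ => rfl, fun _ => h _ ⟨j, Or.inl ⟨hu, rfl⟩⟩⟩
      | false => exact ⟨fun hy => absurd hy (h _ ⟨j, Or.inr ⟨hu, rfl⟩⟩), fun h => by cases h⟩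
  refine (h1.trans h2).mono ?_ le_rfl ?_
  · rw [Fintype.card_fun, Fintype.card_bool, Fintype.card_fin]; omega
  · rintro g ⟨u, rfl⟩
    exact Or.inr (Set.mem_iUnion.2 ⟨u, rfl⟩)

/-- The number of ones among the inputs. -/
theorem thr_ones_gen (B Z : Set (BF (RV n σ))) (hB : vars (RV n σ) ⊆ B) :
    Gen B Z (n * (n + 1) + 2) 0
      {g | ∃ k, g = fun y : RV n σ → Prop => k ≤ ones (fun i => y (Sum.inl i))} := by
  have h := thr_gen (B := B) (Z := Z)
    ((List.finRange n).map fun i (y : RV n σ → Prop) => y (Sum.inl i)) (by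
      intro g hg
      obtain ⟨i, _, rfl⟩ := List.mem_map.1 hg
      exact hB ⟨_, rfl⟩)
  refine h.mono (by simp) le_rfl ?_
  rintro g ⟨k, rfl⟩
  refine ⟨k, ?_⟩
  funext y
  unfold thr ones
  rw [cntL_finRange, cntL_finRange]

/-- Functions given by a selection of blocks depending on the random string. -/
theorem random_gen (D K ρ : ℕ) (hD : D = 2 ^ σ) (sel : Fin D → (Fin σ → Bool) → Prop)
    (hsel : ∀ u, Nat.card {k : Fin D // sel k u} ≤ K) (hK : K < 2 ^ ρ) :
    Gen (vars (RV n σ)) (onlyR n σ)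
      ((σ + 2 ^ σ) + (n * (n + 1) + 2) + D + (D * 2) + 2 * (D * (D + 1) + 2) + 5 * 2 ^ ρ) ρ
      {fun y : RV n σ → Prop => ∃ k : Fin D, sel k (fun j => by
        classical
        exact decide (y (Sum.inr j))) ∧ ones (fun i => y (Sum.inl i)) = 2 * k.val} := by
  classical
  have g1 := isU_gen (n := n) (σ := σ) (vars (RV n σ)) subset_rfl
  have g2 := thr_ones_gen (n := n) (σ := σ) (vars (RV n σ)) (onlyR n σ) subset_rfl
  have g3 := g1.union g2
  -- the selectors
  let S : Fin D → BF (RV n σ) := fun k y => sel k (fun j => decide (y (Sum.inr j)))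
  have hS : ∀ k, S k = fun y => ∃ g ∈ {g | ∃ u, sel k u ∧ g = isU n u}, g y := by
    intro k
    funext y
    apply propext
    constructor
    · intro h
      refine ⟨_, ⟨_, h, rfl⟩, fun j => ?_⟩
      simp
    · rintro ⟨g, ⟨u, hu, rfl⟩, h⟩
      have : u = fun j => decide (y (Sum.inr j)) := by
        funext j
        have := h j
        by_cases hy : y (Sum.inr j)
        · rw [this.1 hy]; simp [hy]
        · have h' : ¬ u j = true := fun h' => hy (this.2 h')
          simp only [Bool.not_eq_true] at h'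
          rw [h']; simp [hy]
      rw [this] at hu
      exact hu
  obtain ⟨B1, hB1⟩ : ∃ B1 : Set (BF (RV n σ)), B1 = vars (RV n σ) ∪ ({g | ∃ u, g = isU n u} ∪
      {g | ∃ k, g = fun y : RV n σ → Prop => k ≤ ones (fun i => y (Sum.inl i))}) := ⟨_, rfl⟩
  have hthr : ∀ k : ℕ, (fun y : RV n σ → Prop => k ≤ ones (fun i => y (Sum.inl i))) ∈ B1 := by
    intro k
    rw [hB1]
    exact Or.inr (Or.inr ⟨k, rfl⟩)
  have g4 : Gen B1 (onlyR n σ) (Fintype.card (Fin D) * 1) 0 (⋃ k : Fin D, {S k}) := by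
    apply Gen.iUnion
    intro k
    rw [hS k]
    apply Gen.or
    rintro g ⟨u, _, rfl⟩
    rw [hB1]
    exact Or.inr (Or.inl ⟨u, rfl⟩)
  -- the products
  let lo : Fin D → BF (RV n σ) := fun k y => S k y ∧ 2 * k.val + 1 ≤ ones (fun i => y (Sum.inl i))
  let hi : Fin D → BF (RV n σ) := fun k y => S k y ∧ 2 * k.val ≤ ones (fun i => y (Sum.inl i))
  have g5 : Gen (B1 ∪ ⋃ k : Fin D, {S k}) (onlyR n σ) (Fintype.card (Fin D) * 2) 0
      (⋃ k : Fin D, {lo k, hi k}) := by
    apply Gen.iUnion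
    intro k
    have a1 : Gen (B1 ∪ ⋃ k : Fin D, {S k}) (onlyR n σ) 1 0 {lo k} :=
      Gen.and2 (f := S k) (Or.inr (Set.mem_iUnion.2 ⟨k, rfl⟩)) (Or.inl (hthr (2 * k.val + 1)))
    have a2 : Gen (B1 ∪ ⋃ k : Fin D, {S k}) (onlyR n σ) 1 0 {hi k} :=
      Gen.and2 (f := S k) (Or.inr (Set.mem_iUnion.2 ⟨k, rfl⟩)) (Or.inl (hthr (2 * k.val)))
    exact (a1.union a2).mono le_rfl le_rfl (by
      rintro g (rfl | rfl)
      · exact Or.inl rfl
      · exact Or.inr rfl)
  obtain ⟨B2, hB2⟩ : ∃ B2 : Set (BF (RV n σ)), B2 = (B1 ∪ ⋃ k : Fin D, {S k}) ∪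
      (⋃ k : Fin D, {lo k, hi k}) := ⟨_, rfl⟩
  let LL : List (BF (RV n σ)) := (List.finRange D).map lo
  let LH : List (BF (RV n σ)) := (List.finRange D).map hi
  have g6 : Gen B2 (onlyR n σ) (D * (D + 1) + 2) 0 {g | ∃ k, g = thr LL k} := by
    refine (thr_gen LL ?_).mono (by simp [LL]) le_rfl subset_rfl
    intro g hg
    obtain ⟨i, _, rfl⟩ := List.mem_map.1 hg
    rw [hB2]
    exact Or.inr (Set.mem_iUnion.2 ⟨i, Or.inl rfl⟩)
  have g7 : Gen B2 (onlyR n σ) (D * (D + 1) + 2) 0 {g | ∃ k, g = thr LH k} := by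
    refine (thr_gen LH ?_).mono (by simp [LH]) le_rfl subset_rfl
    intro g hg
    obtain ⟨i, _, rfl⟩ := List.mem_map.1 hg
    rw [hB2]
    exact Or.inr (Set.mem_iUnion.2 ⟨i, Or.inr rfl⟩)
  have g8 := g6.union g7
  have g9 := mux_gen (Z := onlyR n σ) ρ (B2 ∪ ({g | ∃ k, g = thr LL k} ∪ {g | ∃ k, g = thr LH k}))
    (fun k => thr LL k) (fun k => thr LH k)
    (fun k _ _ => Or.inr (Or.inl ⟨_, rfl⟩)) (fun k _ _ => Or.inr (Or.inr ⟨_, rfl⟩))
  have e : mux ρ (fun k => thr LL k) (fun k => thr LH k) = fun y : RV n σ → Prop =>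
      ∃ k : Fin D, sel k (fun j => decide (y (Sum.inr j))) ∧
        ones (fun i => y (Sum.inl i)) = 2 * k.val := by
    funext y
    apply propext
    obtain ⟨w, hw⟩ : ∃ w, w = ones (fun i => y (Sum.inl i)) := ⟨_, rfl⟩
    have hcl : cntL LL y = (Finset.univ.filter fun k : Fin D => S k y ∧ 2 * k.val + 1 ≤ w).card := by
      refine cntL_finRange' lo y (fun k : Fin D => S k y ∧ 2 * k.val + 1 ≤ w) fun k => ?_
      rw [hw]
    have hch : cntL LH y = (Finset.univ.filter fun k : Fin D => S k y ∧ 2 * k.val ≤ w).card := by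
      refine cntL_finRange' hi y (fun k : Fin D => S k y ∧ 2 * k.val ≤ w) fun k => ?_
      rw [hw]
    have hlt : cntL LL y < 2 ^ ρ := by
      refine lt_of_le_of_lt ?_ hK
      refine le_trans ?_ (hsel (fun j => decide (y (Sum.inr j))))
      rw [hcl, Nat.card_eq_fintype_card, Fintype.card_subtype]
      refine Finset.card_le_card fun k hk => ?_
      exact Finset.mem_filter.2 ⟨Finset.mem_univ _, (Finset.mem_filter.1 hk).2.1⟩
    rw [mux_iff ρ _ _ y (cntL LL y) hlt (fun k _ hk => hk) (fun k hk _ h => by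
      have : k ≤ cntL LL y := h
      omega)]
    show cntL LL y + 1 ≤ cntL LH y ↔ _
    rw [hcl, hch, ← hw]
    have hsub : (Finset.univ.filter fun k : Fin D => S k y ∧ 2 * k.val + 1 ≤ w) ⊆
        (Finset.univ.filter fun k : Fin D => S k y ∧ 2 * k.val ≤ w) := by
      intro k hk
      obtain ⟨h1, h2⟩ := (Finset.mem_filter.1 hk).2
      exact Finset.mem_filter.2 ⟨Finset.mem_univ _, h1, by omega⟩
    constructor
    · intro h
      have hne : ∃ k ∈ (Finset.univ.filter fun k : Fin D => S k y ∧ 2 * k.val ≤ w),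
          k ∉ (Finset.univ.filter fun k : Fin D => S k y ∧ 2 * k.val + 1 ≤ w) := by
        by_contra hcon
        push Not at hcon
        have := Finset.card_le_card (show (Finset.univ.filter fun k : Fin D =>
          S k y ∧ 2 * k.val ≤ w) ⊆ _ from hcon)
        omega
      obtain ⟨k, hk1, hk2⟩ := hne
      obtain ⟨h1, h2⟩ := (Finset.mem_filter.1 hk1).2
      refine ⟨k, h1, ?_⟩
      by_contra h3
      apply hk2
      exact Finset.mem_filter.2 ⟨Finset.mem_univ _, h1, by omega⟩
    · rintro ⟨k, h1, h2⟩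
      apply Nat.succ_le_of_lt
      apply Finset.card_lt_card
      refine ⟨hsub, fun hcon => ?_⟩
      have : k ∈ (Finset.univ.filter fun k : Fin D => S k y ∧ 2 * k.val ≤ w) :=
        Finset.mem_filter.2 ⟨Finset.mem_univ _, h1, by omega⟩
      have := (Finset.mem_filter.1 (hcon this)).2.2
      omega
  rw [e] at g9
  have t1 := g3.trans' g4 hB1.le
  have t3 := t1.trans' g5 (by
    intro g hg
    rw [hB1] at hg
    simp only [Set.mem_union] at hg ⊢
    tauto)
  have t4 := t3.trans' g8 (by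
    intro g hg
    rw [hB2, hB1] at hg
    simp only [Set.mem_union] at hg ⊢
    tauto)
  have t5 := t4.trans' g9 (by
    intro g hg
    rw [hB2, hB1] at hg
    simp only [Set.mem_union] at hg ⊢
    tauto)
  refine t5.mono ?_ (by omega) Set.subset_union_right
  rw [Fintype.card_fin]
  omega

end random

end Pool.Agent.NegCount
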