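import Pool.Agent.Lib.MP_b573ec_adl.Exam

/-!
The optimal example.
-/

set_option autoImplicit false

namespace Pool.Agent.NegCount

open Pool.Agent.CliqueCircuits

theorem example_exists {n ρ σ : ℕ} (γ : ℝ) (hγ1 : γ ≤ 1) (h : γ * 2 ^ σ ≤ (2 : ℝ) ^ ρ - 1)
    (hn : 2 ^ (σ + 1) ≤ n + 1) :
    ∃ (f : (Fin n → Bool) → Bool) (s t : ℕ) (C : Circuit (Fin n ⊕ Fin t) s),
      (s ≤ 20 * (n + 1) ^ 2 ∧ ∀ r, numNotGiven C r ≤ ρ) ∧
      (∀ x, f x = true → γ ≤ acceptProb C x) ∧ (∀ x, f x = false → acceptProb C x = 0) ∧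
      ∀ (s' : ℕ) (D : Circuit (Fin n) s'), Computes D f → σ < D.numNot := by
  classical
  haveI : NeZero (2 ^ σ) := ⟨by positivity⟩
  have e2 : 2 ^ (σ + 1) = 2 * 2 ^ σ := by rw [pow_succ]; ring
  have hp : 1 ≤ 2 ^ σ := Nat.one_le_two_pow
  have hpρ : 1 ≤ 2 ^ ρ := Nat.one_le_two_pow
  -- parameters
  obtain ⟨K, hK⟩ : ∃ K, K = min (2 ^ ρ - 1) (2 ^ σ) := ⟨_, rfl⟩
  obtain ⟨ρ', hρ'⟩ : ∃ ρ', ρ' = min ρ (σ + 1) := ⟨_, rfl⟩
  have hρ'σ : 2 ^ ρ' ≤ 2 ^ (σ + 1) := Nat.pow_le_pow_right (by omega) (by omega)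
  have hKρ : K < 2 ^ ρ' := by
    rcases le_total ρ (σ + 1) with hc | hc
    · rw [show ρ' = ρ by omega]; omega
    · rw [show ρ' = σ + 1 by omega]; omega
  have hKD : K ≤ 2 ^ σ := by omega
  have hKγ : γ * 2 ^ σ ≤ K := by
    rw [hK, Nat.cast_min]
    refine le_min ?_ ?_
    · rw [Nat.cast_sub hpρ]
      push_cast
      exact h
    · push_cast
      have : (0 : ℝ) < 2 ^ σ := by positivity
      nlinarith
  let e : (Fin σ → Bool) ≃ Fin (2 ^ σ) := Fintype.equivFinOfCardEq (by
    rw [Fintype.card_fun, Fintype.card_bool, Fintype.card_fin])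
  let sel : Fin (2 ^ σ) → (Fin σ → Bool) → Prop := fun k u => (k - e u).val < K
  have hsel : ∀ u, Nat.card {k : Fin (2 ^ σ) // sel k u} ≤ K := by
    intro u
    have hinj : Function.Injective
        (fun k : {k : Fin (2 ^ σ) // sel k u} => (⟨(k.1 - e u).val, k.2⟩ : Fin K)) := by
      intro a b hab
      have h1 : (a.1 - e u).val = (b.1 - e u).val := Fin.mk.inj hab
      have h2 : a.1 - e u = b.1 - e u := Fin.ext h1
      exact Subtype.ext (sub_left_injective h2)
    refine (Nat.card_le_card_of_injective _ hinj).trans (le_of_eq ?_)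
    rw [Nat.card_eq_fintype_card, Fintype.card_fin]
  have hsel' : ∀ k : Fin (2 ^ σ), K ≤ Nat.card {u : Fin σ → Bool // sel k u} := by
    intro k
    have hinj : Function.Injective (fun i : Fin K =>
        (⟨e.symm (k - ⟨i.val, lt_of_lt_of_le i.isLt hKD⟩), by
          simp only [sel, Equiv.apply_symm_apply, sub_sub_cancel]
          exact i.isLt⟩ : {u : Fin σ → Bool // sel k u})) := by
      intro a b hab
      have h1 := e.symm.injective (congrArg Subtype.val hab)
      have h2 := sub_right_injective h1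
      exact Fin.ext (by simpa using congrArg Fin.val h2)
    refine (le_of_eq ?_).trans (Nat.card_le_card_of_injective _ hinj)
    rw [Nat.card_eq_fintype_card, Fintype.card_fin]
  -- the circuit
  obtain ⟨s, C, F, hs, hF, hout, hnum⟩ :=
    (random_gen (n := n) (σ := σ) (2 ^ σ) K ρ' rfl sel hsel hKρ).circuit
  let f : (Fin n → Bool) → Bool := fun x => decide (evenFn n (2 ^ σ) (fun i => x i = true))
  have hacc : ∀ x r, Accepts C x r ↔
      ∃ k : Fin (2 ^ σ), sel k r ∧ ones (fun i => x i = true) = 2 * k.val := by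
    intro x r
    have h1 := hF (Sum.elim (fun i => x i = true) (fun i => r i = true))
    have h2 : F C.out (Sum.elim (fun i => x i = true) (fun i => r i = true)) ↔
        ∃ k : Fin (2 ^ σ), sel k r ∧ ones (fun i => x i = true) = 2 * k.val := by
      rw [hout]
      simp
    constructor
    · rintro ⟨val, hv, ho⟩
      rw [isEval_unique hv h1] at ho
      exact h2.1 ho
    · intro h
      exact ⟨_, h1, h2.2 h⟩
  refine ⟨f, s, σ, C, ⟨?_, ?_⟩, ?_, ?_, ?_⟩
  · -- the size
    have hσ : σ < 2 ^ σ := Nat.lt_two_pow_self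
    have h5 : 5 * 2 ^ ρ' ≤ 10 * 2 ^ σ := by omega
    have hn2 : 2 * 2 ^ σ ≤ n + 1 := by omega
    have h6 : 4 * (2 ^ σ * 2 ^ σ) ≤ (n + 1) * (n + 1) := by
      have := Nat.mul_le_mul hn2 hn2
      nlinarith
    have h7 : n + 1 ≤ (n + 1) * (n + 1) := Nat.le_mul_of_pos_left _ (by omega)
    have h8 : n * (n + 1) ≤ (n + 1) * (n + 1) := Nat.mul_le_mul_right _ (by omega)
    have h9 : 2 ^ σ * (2 ^ σ + 1) = 2 ^ σ * 2 ^ σ + 2 ^ σ := by ring
    rw [h9] at hs
    rw [pow_two]
    omega
  · intro r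
    refine le_trans ?_ (hnum.trans (by omega))
    unfold numNotGiven
    have hinj : Function.Injective
        (fun i : {i : Fin s // C.kind i = GateKind.not ∧ DependsOnInput C r i} =>
          (⟨i.1, i.2.1, by
            rintro ⟨a, ⟨g', rfl⟩, hFa⟩
            obtain ⟨x, x', val, val', h1, h2, h3⟩ := i.2.2
            apply h3
            rw [isEval_unique h1 (hF _), isEval_unique h2 (hF _)]
            show F i.1 _ ↔ F i.1 _
            rw [hFa]
            exact Iff.rfl⟩ :
            {i : Fin s // C.kind i = GateKind.not ∧ ¬ NegOf (onlyR n σ) (F i)})) := by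
      intro a b hab
      exact Subtype.ext (Subtype.mk.inj hab)
    exact Nat.card_le_card_of_injective _ hinj
  · intro x hx
    obtain ⟨k, hk, hk'⟩ : evenFn n (2 ^ σ) (fun i => x i = true) := of_decide_eq_true hx
    unfold acceptProb
    rw [le_div_iff₀ (by positivity)]
    refine hKγ.trans ?_
    have h1 := hsel' ⟨k, hk⟩
    have h2 : Nat.card {u : Fin σ → Bool // sel ⟨k, hk⟩ u} ≤
        Nat.card {r : Fin σ → Bool // Accepts C x r} := by
      have hinj : Function.Injective (fun u : {u : Fin σ → Bool // sel ⟨k, hk⟩ u} =>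
          (⟨u.1, (hacc x u.1).2 ⟨⟨k, hk⟩, u.2, hk'⟩⟩ : {r : Fin σ → Bool // Accepts C x r})) := by
        intro a b hab
        exact Subtype.ext (Subtype.mk.inj hab)
      exact Nat.card_le_card_of_injective _ hinj
    exact_mod_cast h1.trans h2
  · intro x hx
    have hx' : ¬ evenFn n (2 ^ σ) (fun i => x i = true) := of_decide_eq_false hx
    unfold acceptProb
    have : IsEmpty {r : Fin σ → Bool // Accepts C x r} := by
      constructor
      rintro ⟨r, hr⟩
      obtain ⟨k, _, hk⟩ := (hacc x r).1 hr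
      exact hx' ⟨k.val, k.isLt, hk⟩
    rw [Nat.card_of_isEmpty]
    simp
  · intro s' D hD
    by_contra hcon
    push Not at hcon
    refine no_dec hn ((dec_det D (evenFn n (2 ^ σ)) ?_).pad hcon)
    intro x
    obtain ⟨val, h1, h2⟩ := hD (fun i => decide (x i))
    have ex : (fun i => (decide (x i) : Bool) = true) = x := by
      funext i; simp
    rw [ex] at h1
    refine ⟨val, h1, ?_⟩
    rw [h2]
    simp only [f, decide_eq_true_eq]

end Pool.Agent.NegCount
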