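import Pool.Agent.Lib.MP_0a1b52_lc.Basic

/-!
Straight-line programs for Boolean functions, with a count of the NOT gates, and their translation
into circuits.
-/

set_option autoImplicit false

namespace Pool.Agent.NegCount

open Pool.Agent.CliqueCircuits

/-- Boolean functions of the variables `V`. -/
abbrev BF (V : Type) := (V → Prop) → Prop

/-- The variables, as Boolean functions. -/
def vars (V : Type) : Set (BF V) := {g | ∃ v, g = fun x => x v}

/-- `Prog B Z L k`: the functions in the list `L` are computed one after the other (the last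
computed one is the head of the list), each from functions in `B` or computed before; `k` of the
NOT gates are applied to functions not in `Z`. -/
inductive Prog {V : Type} (B Z : Set (BF V)) : List (BF V) → ℕ → Prop
  | nil : Prog B Z [] 0
  | and {L : List (BF V)} {k : ℕ} (S : Set (BF V)) (hS : ∀ g ∈ S, g ∈ B ∨ g ∈ L)
      (h : Prog B Z L k) : Prog B Z ((fun x => ∀ g ∈ S, g x) :: L) k
  | or {L : List (BF V)} {k : ℕ} (S : Set (BF V)) (hS : ∀ g ∈ S, g ∈ B ∨ g ∈ L)
      (h : Prog B Z L k) : Prog B Z ((fun x => ∃ g ∈ S, g x) :: L) k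
  | not {L : List (BF V)} {k : ℕ} (g : BF V) (hg : g ∈ B ∨ g ∈ L)
      (h : Prog B Z L k) : Prog B Z ((fun x => ¬ g x) :: L) (k + 1)
  | free {L : List (BF V)} {k : ℕ} (g : BF V) (hg : g ∈ B ∨ g ∈ L) (hz : g ∈ Z)
      (h : Prog B Z L k) : Prog B Z ((fun x => ¬ g x) :: L) k

/-- `Gen B Z m k F`: all functions in `F` are computed together from those in `B` by `m` gates, `k`
of which are NOT gates applied to functions not in `Z`. -/
def Gen {V : Type} (B Z : Set (BF V)) (m k : ℕ) (F : Set (BF V)) : Prop :=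
  ∃ (L : List (BF V)) (k' : ℕ), Prog B Z L k' ∧ L.length ≤ m ∧ k' ≤ k ∧ ∀ g ∈ F, g ∈ B ∨ g ∈ L

section

variable {V : Type} {B Z F F' : Set (BF V)}

theorem Prog.append {L' : List (BF V)} {k' : ℕ} (h' : Prog (B ∪ F) Z L' k') {L : List (BF V)}
    {k : ℕ} (h : Prog B Z L k) (hF : ∀ g ∈ F, g ∈ B ∨ g ∈ L) : Prog B Z (L' ++ L) (k' + k) := by
  have key : ∀ {L' : List (BF V)} {g : BF V}, g ∈ B ∪ F ∨ g ∈ L' → g ∈ B ∨ g ∈ L' ++ L := by
    intro L' g hg
    rcases hg with (hg | hg) | hg
    · exact Or.inl hg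
    · rcases hF g hg with h | h
      · exact Or.inl h
      · exact Or.inr (List.mem_append_right _ h)
    · exact Or.inr (List.mem_append_left _ hg)
  induction h' with
  | nil => simpa using h
  | and S hS _ ih => exact Prog.and S (fun g hg => key (hS g hg)) ih
  | or S hS _ ih => exact Prog.or S (fun g hg => key (hS g hg)) ih
  | @not L1 k1 g hg _ ih =>
    have := Prog.not (Z := Z) g (key hg) ih
    rw [show k1 + 1 + k = k1 + k + 1 by ring]
    exact this
  | free g hg hz _ ih => exact Prog.free g (key hg) hz ih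

theorem Gen.mono {m m' k k' : ℕ} (h : Gen B Z m k F) (hm : m ≤ m') (hk : k ≤ k')
    (hF : F' ⊆ F) : Gen B Z m' k' F' := by
  obtain ⟨L, k1, hL, h1, h2, h3⟩ := h
  exact ⟨L, k1, hL, h1.trans hm, h2.trans hk, fun g hg => h3 g (hF hg)⟩

theorem Gen.trans {m m' k k' : ℕ} (h : Gen B Z m k F) (h' : Gen (B ∪ F) Z m' k' F') :
    Gen B Z (m + m') (k + k') (F ∪ F') := by
  obtain ⟨L, k1, hL, h1, h2, h3⟩ := h
  obtain ⟨L', k1', hL', h1', h2', h3'⟩ := h'
  refine ⟨L' ++ L, k1' + k1, hL'.append hL h3, ?_, ?_, ?_⟩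
  · rw [List.length_append]; omega
  · omega
  · rintro g (hg | hg)
    · rcases h3 g hg with h | h
      · exact Or.inl h
      · exact Or.inr (List.mem_append_right _ h)
    · rcases h3' g hg with (h | h) | h
      · exact Or.inl h
      · rcases h3 g h with h | h
        · exact Or.inl h
        · exact Or.inr (List.mem_append_right _ h)
      · exact Or.inr (List.mem_append_left _ h)

theorem Gen.base_mono {B' : Set (BF V)} {m k : ℕ} (h : Gen B Z m k F) (hB : B ⊆ B') :
    Gen B' Z m k F := by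
  obtain ⟨L, k1, hL, h1, h2, h3⟩ := h
  have : ∀ {L : List (BF V)} {k : ℕ}, Prog B Z L k → Prog B' Z L k := by
    intro L k h
    induction h with
    | nil => exact Prog.nil
    | and S hS _ ih => exact Prog.and S (fun g hg => (hS g hg).imp_left (fun h => hB h)) ih
    | or S hS _ ih => exact Prog.or S (fun g hg => (hS g hg).imp_left (fun h => hB h)) ih
    | not g hg _ ih => exact Prog.not g (hg.imp_left (fun h => hB h)) ih
    | free g hg hz _ ih => exact Prog.free g (hg.imp_left (fun h => hB h)) hz ih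
  exact ⟨L, k1, this hL, h1, h2, fun g hg => (h3 g hg).imp_left (fun h => hB h)⟩

theorem Gen.trans' {B' : Set (BF V)} {m m' k k' : ℕ} (h : Gen B Z m k F)
    (h' : Gen B' Z m' k' F') (hB : B' ⊆ B ∪ F) : Gen B Z (m + m') (k + k') (F ∪ F') :=
  h.trans (h'.base_mono hB)

theorem Gen.zero (h : F ⊆ B) : Gen B Z 0 0 F :=
  ⟨[], 0, Prog.nil, le_rfl, le_rfl, fun _ hg => Or.inl (h hg)⟩

theorem Gen.union {m m' k k' : ℕ} (h : Gen B Z m k F) (h' : Gen B Z m' k' F') :
    Gen B Z (m + m') (k + k') (F ∪ F') :=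
  h.trans (h'.base_mono Set.subset_union_left)

/-- A family of functions, each of them computed separately. -/
theorem Gen.iUnion_fin {m : ℕ} : ∀ {N : ℕ} (G : Fin N → Set (BF V)),
    (∀ i, Gen B Z m 0 (G i)) → Gen B Z (N * m) 0 (⋃ i, G i)
  | 0, G, _ => by
    refine (Gen.zero (F := ∅) (Set.empty_subset _)).mono (by omega) le_rfl ?_
    intro g hg
    obtain ⟨i, _⟩ := Set.mem_iUnion.1 hg
    exact i.elim0
  | N + 1, G, h => by
    have h1 := Gen.iUnion_fin (fun i : Fin N => G i.castSucc) (fun i => h _)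
    refine (h1.union (h (Fin.last N))).mono (by rw [Nat.add_mul, Nat.one_mul]) le_rfl ?_
    intro g hg
    obtain ⟨i, hi⟩ := Set.mem_iUnion.1 hg
    revert hi
    refine Fin.lastCases ?_ ?_ i
    · intro hi; exact Or.inr hi
    · intro j hj; exact Or.inl (Set.mem_iUnion.2 ⟨j, hj⟩)

theorem Gen.iUnion {ι : Type} [Fintype ι] {m : ℕ} (G : ι → Set (BF V))
    (h : ∀ i, Gen B Z m 0 (G i)) : Gen B Z (Fintype.card ι * m) 0 (⋃ i, G i) := by
  classical
  let e := Fintype.equivFin ι
  refine (Gen.iUnion_fin (fun i => G (e.symm i)) (fun i => h _)).mono le_rfl le_rfl ?_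
  intro g hg
  obtain ⟨i, hi⟩ := Set.mem_iUnion.1 hg
  exact Set.mem_iUnion.2 ⟨e i, by simpa using hi⟩

theorem Gen.and (S : Set (BF V)) (hS : S ⊆ B) : Gen B Z 1 0 {fun x => ∀ g ∈ S, g x} :=
  ⟨[_], 0, Prog.and S (fun _ hg => Or.inl (hS hg)) Prog.nil, le_rfl, le_rfl,
    fun _ hg => Or.inr (by rw [hg]; exact List.mem_singleton.2 rfl)⟩

theorem Gen.or (S : Set (BF V)) (hS : S ⊆ B) : Gen B Z 1 0 {fun x => ∃ g ∈ S, g x} :=
  ⟨[_], 0, Prog.or S (fun _ hg => Or.inl (hS hg)) Prog.nil, le_rfl, le_rfl,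
    fun _ hg => Or.inr (by rw [hg]; exact List.mem_singleton.2 rfl)⟩

theorem Gen.not {g : BF V} (hg : g ∈ B) : Gen B Z 1 1 {fun x => ¬ g x} :=
  ⟨[_], 1, Prog.not g (Or.inl hg) Prog.nil, le_rfl, le_rfl,
    fun _ hg => Or.inr (by rw [hg]; exact List.mem_singleton.2 rfl)⟩

theorem Gen.free {g : BF V} (hg : g ∈ B) (hz : g ∈ Z) : Gen B Z 1 0 {fun x => ¬ g x} :=
  ⟨[_], 0, Prog.free g (Or.inl hg) hz Prog.nil, le_rfl, le_rfl,
    fun _ hg => Or.inr (by rw [hg]; exact List.mem_singleton.2 rfl)⟩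

/-- `f ∧ g`. -/
theorem Gen.and2 {f g : BF V} (hf : f ∈ B) (hg : g ∈ B) :
    Gen B Z 1 0 {fun x => f x ∧ g x} := by
  have h := Gen.and (B := B) (Z := Z) {f, g} (by
    rintro a (rfl | rfl)
    · exact hf
    · exact hg)
  have e : (fun x => ∀ a ∈ ({f, g} : Set (BF V)), a x) = fun x => f x ∧ g x := by
    funext x
    apply propext
    constructor
    · intro h; exact ⟨h f (Or.inl rfl), h g (Or.inr rfl)⟩
    · rintro ⟨h1, h2⟩ a (rfl | rfl)
      · exact h1
      · exact h2
  rwa [e] at h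

/-- `f ∨ g`. -/
theorem Gen.or2 {f g : BF V} (hf : f ∈ B) (hg : g ∈ B) :
    Gen B Z 1 0 {fun x => f x ∨ g x} := by
  have h := Gen.or (B := B) (Z := Z) {f, g} (by
    rintro a (rfl | rfl)
    · exact hf
    · exact hg)
  have e : (fun x => ∃ a ∈ ({f, g} : Set (BF V)), a x) = fun x => f x ∨ g x := by
    funext x
    apply propext
    constructor
    · rintro ⟨a, (rfl | rfl), h1⟩
      · exact Or.inl h1
      · exact Or.inr h1
    · rintro (h1 | h1)
      · exact ⟨f, Or.inl rfl, h1⟩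
      · exact ⟨g, Or.inr rfl, h1⟩
  rwa [e] at h

/-- The constants. -/
theorem Gen.true : Gen B Z 1 0 {fun _ => True} := by
  have h := Gen.and (B := B) (Z := Z) ∅ (Set.empty_subset _)
  have e : (fun x => ∀ a ∈ (∅ : Set (BF V)), a x) = fun _ => True := by
    funext x; simp
  rwa [e] at h

theorem Gen.false : Gen B Z 1 0 {fun _ => False} := by
  have h := Gen.or (B := B) (Z := Z) ∅ (Set.empty_subset _)
  have e : (fun x => ∃ a ∈ (∅ : Set (BF V)), a x) = fun _ => False := by
    funext x; simp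
  rwa [e] at h

/-! ### Monotonicity -/

/-- Monotone Boolean functions. -/
def MonoFn (g : BF V) : Prop := ∀ x y : V → Prop, (∀ v, x v → y v) → g x → g y

theorem Prog.mono {L : List (BF V)} {k : ℕ} (h : Prog B ∅ L k) (hk : k = 0)
    (hB : ∀ g ∈ B, MonoFn g) : ∀ g ∈ L, MonoFn g := by
  induction h with
  | nil => intro g hg; simp at hg
  | @and L k S hS _ ih =>
    intro g hg
    rcases List.mem_cons.1 hg with rfl | hg
    · intro x y hxy h a ha
      rcases hS a ha with h1 | h1
      · exact hB a h1 x y hxy (h a ha)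
      · exact ih hk a h1 x y hxy (h a ha)
    · exact ih hk g hg
  | @or L k S hS _ ih =>
    intro g hg
    rcases List.mem_cons.1 hg with rfl | hg
    · rintro x y hxy ⟨a, ha, h⟩
      refine ⟨a, ha, ?_⟩
      rcases hS a ha with h1 | h1
      · exact hB a h1 x y hxy h
      · exact ih hk a h1 x y hxy h
    · exact ih hk g hg
  | not g hg _ ih => omega
  | free g hg hz _ ih => exact absurd hz (Set.notMem_empty _)

theorem Gen.monoFn {m : ℕ} (h : Gen B ∅ m 0 F) (hB : ∀ g ∈ B, MonoFn g) :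
    ∀ g ∈ F, MonoFn g := by
  obtain ⟨L, k1, hL, h1, h2, h3⟩ := h
  intro g hg
  rcases h3 g hg with h | h
  · exact hB g h
  · exact hL.mono (by omega) hB g h

theorem vars_mono : ∀ g ∈ vars V, MonoFn g := by
  rintro g ⟨v, rfl⟩ x y hxy h
  exact hxy v h

end

end Pool.Agent.NegCount
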