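import Pool.Agent.Lib.MP_b573ec_adl.Dec

/-!
Threshold functions and the selection of a function by a decreasing sequence.
-/

set_option autoImplicit false

namespace Pool.Agent.NegCount

open Pool.Agent.CliqueCircuits

section

variable {V : Type} {B Z : Set (BF V)}

/-- At least `k` functions of the list are true. -/
def thr (L : List (BF V)) (k : ℕ) : BF V := fun x => k ≤ cntL L x

theorem thr_gen (L : List (BF V)) (hL : ∀ g ∈ L, g ∈ B) :
    Gen B Z (L.length * (L.length + 1) + 2) 0 {g | ∃ k, g = thr L k} := by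
  induction L with
  | nil =>
    refine ((Gen.true (B := B) (Z := Z)).union Gen.false).mono (by simp) le_rfl ?_
    rintro g ⟨k, rfl⟩
    rcases Nat.eq_zero_or_pos k with rfl | hk
    · left
      funext x
      apply propext
      simp [thr]
    · right
      funext x
      apply propext
      simp only [thr, cntL_nil, iff_false]
      omega
  | cons a L ih =>
    have h1 := ih fun g hg => hL g (List.mem_cons_of_mem _ hg)
    have h2 : Gen (B ∪ {g | ∃ k, g = thr L k}) Z (Fintype.card (Fin (L.length + 1)) * 2) 0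
        (⋃ i : Fin (L.length + 1), {thr (a :: L) (i.val + 1)}) := by
      apply Gen.iUnion
      intro i
      have e : thr (a :: L) (i.val + 1) =
          fun x => thr L (i.val + 1) x ∨ (fun x => a x ∧ thr L i.val x) x := by
        funext x
        apply propext
        simp only [thr]
        by_cases hx : a x
        · rw [cntL_cons_pos _ hx]
          constructor
          · intro h; exact Or.inr ⟨hx, by omega⟩
          · rintro (h | ⟨_, h⟩) <;> omega
        · rw [cntL_cons_neg _ hx]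
          constructor
          · intro h; exact Or.inl h
          · rintro (h | ⟨h, _⟩)
            · exact h
            · exact absurd h hx
      have h3 : Gen (B ∪ {g | ∃ k, g = thr L k}) Z 1 0 {fun x => a x ∧ thr L i.val x} :=
        Gen.and2 (Or.inl (hL a List.mem_cons_self)) (Or.inr ⟨_, rfl⟩)
      have h4 : Gen ((B ∪ {g | ∃ k, g = thr L k}) ∪ {fun x => a x ∧ thr L i.val x}) Z 1 0
          {fun x => thr L (i.val + 1) x ∨ (fun x => a x ∧ thr L i.val x) x} :=
        Gen.or2 (Or.inl (Or.inr ⟨_, rfl⟩)) (Or.inr rfl)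
      rw [e]
      exact (h3.trans h4).mono le_rfl le_rfl Set.subset_union_right
    refine (h1.trans h2).mono ?_ le_rfl ?_
    · rw [Fintype.card_fin, List.length_cons]; ring_nf; omega
    · rintro g ⟨k, rfl⟩
      rcases Nat.eq_zero_or_pos k with rfl | hk
      · left
        refine ⟨0, ?_⟩
        funext x
        apply propext
        simp [thr]
      · by_cases hk' : k ≤ L.length + 1
        · right
          refine Set.mem_iUnion.2 ⟨⟨k - 1, by omega⟩, ?_⟩
          rw [Set.mem_singleton_iff]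
          congr 1
          show k = k - 1 + 1
          omega
        · left
          refine ⟨L.length + 1, ?_⟩
          funext x
          apply propext
          simp only [thr]
          have h5 := cntL_le (a :: L) x
          have h6 := cntL_le L x
          rw [List.length_cons] at h5
          constructor
          · intro h; omega
          · intro h; omega

/-- The function `u (q + 1)`, where `q` is the number of true functions among
`v 1 ≥ v 2 ≥ … ≥ v (2 ^ σ - 1)`. -/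
def mux : ℕ → (ℕ → BF V) → (ℕ → BF V) → BF V
  | 0, _, u => u 1
  | σ + 1, v, u => mux σ
      (fun k x => (v k x ∧ ¬ v (2 ^ σ) x) ∨ v (2 ^ σ + k) x)
      (fun k x => (u k x ∧ ¬ v (2 ^ σ) x) ∨ (u (2 ^ σ + k) x ∧ v (2 ^ σ) x))

theorem mux_iff : ∀ (σ : ℕ) (v u : ℕ → BF V) (x : V → Prop) (q : ℕ), q < 2 ^ σ →
    (∀ k, 1 ≤ k → k ≤ q → v k x) → (∀ k, q < k → k < 2 ^ σ → ¬ v k x) →
    (mux σ v u x ↔ u (q + 1) x)
  | 0, v, u, x, q, hq, _, _ => by
    have : q = 0 := by simpa using hq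
    subst this
    exact Iff.rfl
  | σ + 1, v, u, x, q, hq, h1, h2 => by
    have hp : 1 ≤ 2 ^ σ := Nat.one_le_two_pow
    have e2 : 2 ^ (σ + 1) = 2 * 2 ^ σ := by rw [pow_succ]; ring
    unfold mux
    by_cases hc : 2 ^ σ ≤ q
    · have hm : v (2 ^ σ) x := h1 _ hp hc
      rw [mux_iff σ _ _ x (q - 2 ^ σ) (by omega)
        (fun k hk1 hk2 => Or.inr (h1 _ (by omega) (by omega)))
        (fun k hk1 hk2 => by
          rintro (h | h)
          · exact h.2 hm
          · exact h2 _ (by omega) (by omega) h)]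
      have e : 2 ^ σ + (q - 2 ^ σ + 1) = q + 1 := by omega
      rw [e]
      constructor
      · rintro (h | h)
        · exact absurd hm h.2
        · exact h.1
      · exact fun h => Or.inr ⟨h, hm⟩
    · push Not at hc
      have hm : ¬ v (2 ^ σ) x := h2 _ hc (by omega)
      rw [mux_iff σ _ _ x q hc
        (fun k hk1 hk2 => Or.inl ⟨h1 _ hk1 hk2, hm⟩)
        (fun k hk1 hk2 => by
          rintro (h | h)
          · exact h2 k hk1 (by omega) h.1
          · exact h2 (2 ^ σ + k) (by omega) (by omega) h)]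
      constructor
      · rintro (h | h)
        · exact h.1
        · exact absurd h.2 hm
      · exact fun h => Or.inl ⟨h, hm⟩

theorem mux_gen : ∀ (σ : ℕ) (B : Set (BF V)) (v u : ℕ → BF V),
    (∀ k, 1 ≤ k → k < 2 ^ σ → v k ∈ B) → (∀ k, 1 ≤ k → k ≤ 2 ^ σ → u k ∈ B) →
    Gen B Z (5 * 2 ^ σ) σ {mux σ v u}
  | 0, B, v, u, _, hu => by
    refine (Gen.zero (F := {mux 0 v u}) ?_).mono (by omega) le_rfl subset_rfl
    rintro g rfl
    exact hu 1 le_rfl le_rfl
  | σ + 1, B, v, u, hv, hu => by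
    have hp : 1 ≤ 2 ^ σ := Nat.one_le_two_pow
    have e2 : 2 ^ (σ + 1) = 2 * 2 ^ σ := by rw [pow_succ]; ring
    have h0 : Gen B Z 1 1 {fun x => ¬ v (2 ^ σ) x} := Gen.not (hv _ hp (by omega))
    have hz : (fun x => ¬ v (2 ^ σ) x) ∈ B ∪ {fun x => ¬ v (2 ^ σ) x} := Or.inr rfl
    have h1 : Gen (B ∪ {fun x => ¬ v (2 ^ σ) x}) Z (Fintype.card (Fin (2 ^ σ - 1)) * 2) 0
        (⋃ i : Fin (2 ^ σ - 1),
          {fun x => (v (i.val + 1) x ∧ ¬ v (2 ^ σ) x) ∨ v (2 ^ σ + (i.val + 1)) x}) := by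
      apply Gen.iUnion
      intro i
      have hi := i.isLt
      have a1 : Gen (B ∪ {fun x => ¬ v (2 ^ σ) x}) Z 1 0
          {fun x => v (i.val + 1) x ∧ ¬ v (2 ^ σ) x} :=
        Gen.and2 (Or.inl (hv _ (by omega) (by omega))) hz
      have a2 : Gen ((B ∪ {fun x => ¬ v (2 ^ σ) x}) ∪
          {fun x => v (i.val + 1) x ∧ ¬ v (2 ^ σ) x}) Z 1 0
          {fun x => (v (i.val + 1) x ∧ ¬ v (2 ^ σ) x) ∨ v (2 ^ σ + (i.val + 1)) x} :=
        Gen.or2 (Or.inr rfl) (Or.inl (Or.inl (hv _ (by omega) (by omega))))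
      exact (a1.trans a2).mono le_rfl le_rfl Set.subset_union_right
    have h2 : Gen (B ∪ {fun x => ¬ v (2 ^ σ) x}) Z (Fintype.card (Fin (2 ^ σ)) * 3) 0
        (⋃ i : Fin (2 ^ σ), {fun x => (u (i.val + 1) x ∧ ¬ v (2 ^ σ) x) ∨
          (u (2 ^ σ + (i.val + 1)) x ∧ v (2 ^ σ) x)}) := by
      apply Gen.iUnion
      intro i
      have hi := i.isLt
      have a1 : Gen (B ∪ {fun x => ¬ v (2 ^ σ) x}) Z 1 0
          {fun x => u (i.val + 1) x ∧ ¬ v (2 ^ σ) x} :=
        Gen.and2 (Or.inl (hu _ (by omega) (by omega))) hz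
      have a2 : Gen (B ∪ {fun x => ¬ v (2 ^ σ) x}) Z 1 0
          {fun x => u (2 ^ σ + (i.val + 1)) x ∧ v (2 ^ σ) x} :=
        Gen.and2 (Or.inl (hu _ (by omega) (by omega))) (Or.inl (hv _ hp (by omega)))
      have a3 : Gen ((B ∪ {fun x => ¬ v (2 ^ σ) x}) ∪
          ({fun x => u (i.val + 1) x ∧ ¬ v (2 ^ σ) x} ∪
            {fun x => u (2 ^ σ + (i.val + 1)) x ∧ v (2 ^ σ) x})) Z 1 0
          {fun x => (u (i.val + 1) x ∧ ¬ v (2 ^ σ) x) ∨
            (u (2 ^ σ + (i.val + 1)) x ∧ v (2 ^ σ) x)} :=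
        Gen.or2 (Or.inr (Or.inl rfl)) (Or.inr (Or.inr rfl))
      exact ((a1.union a2).trans a3).mono le_rfl le_rfl Set.subset_union_right
    have h3 := h0.trans (h1.union h2)
    have h4 := mux_gen σ (B ∪ ({fun x => ¬ v (2 ^ σ) x} ∪
        ((⋃ i : Fin (2 ^ σ - 1),
          {fun x => (v (i.val + 1) x ∧ ¬ v (2 ^ σ) x) ∨ v (2 ^ σ + (i.val + 1)) x}) ∪
        (⋃ i : Fin (2 ^ σ), {fun x => (u (i.val + 1) x ∧ ¬ v (2 ^ σ) x) ∨
          (u (2 ^ σ + (i.val + 1)) x ∧ v (2 ^ σ) x)}))))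
      (fun k x => (v k x ∧ ¬ v (2 ^ σ) x) ∨ v (2 ^ σ + k) x)
      (fun k x => (u k x ∧ ¬ v (2 ^ σ) x) ∨ (u (2 ^ σ + k) x ∧ v (2 ^ σ) x))
      (fun k hk1 hk2 => Or.inr (Or.inr (Or.inl (Set.mem_iUnion.2 ⟨⟨k - 1, by omega⟩, by
        rw [Set.mem_singleton_iff]
        simp only [show k - 1 + 1 = k by omega]⟩))))
      (fun k hk1 hk2 => Or.inr (Or.inr (Or.inr (Set.mem_iUnion.2 ⟨⟨k - 1, by omega⟩, by
        rw [Set.mem_singleton_iff]
        simp only [show k - 1 + 1 = k by omega]⟩))))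
    refine (h3.trans h4).mono ?_ ?_ Set.subset_union_right
    · rw [Fintype.card_fin, Fintype.card_fin]; omega
    · omega

end

end Pool.Agent.NegCount
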